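import Mathlib

/-!
Derivations of free groups, finitely generated normal subgroups of free groups, and finitely generated
kernels of homomorphisms from finitely presented groups to free groups.
-/

set_option autoImplicit false

namespace Pool.Agent.H20.SK

open FreeGroup (of)

section der

variable {Z Ω : Type}

/-- the affine permutation `m ↦ v + p m` -/
noncomputable def aff (p : Equiv.Perm Ω) (v : Ω →₀ ℤ) : Equiv.Perm (Ω →₀ ℤ) where
  toFun m := v + Finsupp.mapDomain p m
  invFun m := Finsupp.mapDomain p.symm (m - v)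
  left_inv m := by
    show Finsupp.mapDomain p.symm (v + Finsupp.mapDomain p m - v) = m
    rw [add_sub_cancel_left, ← Finsupp.mapDomain_comp]
    have h : (p.symm ∘ p : Ω → Ω) = id := funext fun x => p.symm_apply_apply x
    rw [h, Finsupp.mapDomain_id]
  right_inv m := by
    show v + Finsupp.mapDomain p (Finsupp.mapDomain p.symm (m - v)) = m
    rw [← Finsupp.mapDomain_comp]
    have h : (p ∘ p.symm : Ω → Ω) = id := funext fun x => p.apply_symm_apply x
    rw [h, Finsupp.mapDomain_id, add_sub_cancel]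

theorem aff_apply (p : Equiv.Perm Ω) (v m : Ω →₀ ℤ) : aff p v m = v + Finsupp.mapDomain p m := rfl

theorem aff_symm_apply (p : Equiv.Perm Ω) (v m : Ω →₀ ℤ) :
    (aff p v)⁻¹ m = Finsupp.mapDomain p.symm (m - v) := rfl

theorem mapDomain_mul (p q : Equiv.Perm Ω) (m : Ω →₀ ℤ) :
    Finsupp.mapDomain (p * q) m = Finsupp.mapDomain p (Finsupp.mapDomain q m) := by
  rw [← Finsupp.mapDomain_comp]; rfl

theorem mapDomain_one' (m : Ω →₀ ℤ) : Finsupp.mapDomain (1 : Equiv.Perm Ω) m = m :=
  Finsupp.mapDomain_id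

/-- derivations of a free group with prescribed values on the generators -/
theorem exists_der (a : FreeGroup Z →* Equiv.Perm Ω) (v : Z → (Ω →₀ ℤ)) :
    ∃ d : FreeGroup Z → (Ω →₀ ℤ), (∀ z, d (of z) = v z) ∧
      ∀ g h, d (g * h) = d g + Finsupp.mapDomain (a g) (d h) := by
  let θ : FreeGroup Z →* Equiv.Perm (Ω →₀ ℤ) := FreeGroup.lift fun z => aff (a (of z)) (v z)
  have hof : ∀ z m, θ (of z) m = v z + Finsupp.mapDomain (a (of z)) m := by
    intro z m
    have h : θ (of z) = aff (a (of z)) (v z) := FreeGroup.lift_apply_of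
    rw [h, aff_apply]
  have key : ∀ g m, θ g m = θ g 0 + Finsupp.mapDomain (a g) m := by
    intro g
    induction g using FreeGroup.induction_on with
    | C1 =>
      intro m
      rw [map_one, map_one, mapDomain_one', Equiv.Perm.one_apply, Equiv.Perm.one_apply, zero_add]
    | of z => intro m; rw [hof, hof, Finsupp.mapDomain_zero, add_zero]
    | inv_of z _ =>
      intro m
      have h : θ (of z)⁻¹ = (aff (a (of z)) (v z))⁻¹ := by
        rw [map_inv]
        congr 1
      rw [h, aff_symm_apply, aff_symm_apply, map_inv, ← Equiv.Perm.inv_def, sub_eq_add_neg,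
        sub_eq_add_neg, Finsupp.mapDomain_add, zero_add, add_comm]
    | mul g h hg hh =>
      intro m
      rw [map_mul, Equiv.Perm.mul_apply, Equiv.Perm.mul_apply, hh m, hg, hg (θ h 0), map_mul,
        mapDomain_mul, Finsupp.mapDomain_add, add_assoc]
  refine ⟨fun g => θ g 0, fun z => ?_, fun g h => ?_⟩
  · show θ (of z) 0 = v z
    rw [hof, Finsupp.mapDomain_zero, add_zero]
  · show θ (g * h) 0 = θ g 0 + Finsupp.mapDomain (a g) (θ h 0)
    rw [map_mul, Equiv.Perm.mul_apply, key g]

theorem der_one {G : Type} [Group G] (a : G →* Equiv.Perm Ω) (d : G → (Ω →₀ ℤ))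
    (hd : ∀ g h, d (g * h) = d g + Finsupp.mapDomain (a g) (d h)) : d 1 = 0 := by
  have h := hd 1 1
  rw [map_one, mapDomain_one', one_mul] at h
  exact (add_eq_left.1 h.symm)

theorem der_inv {G : Type} [Group G] (a : G →* Equiv.Perm Ω) (d : G → (Ω →₀ ℤ))
    (hd : ∀ g h, d (g * h) = d g + Finsupp.mapDomain (a g) (d h)) (g : G) :
    d g⁻¹ = - Finsupp.mapDomain (a g⁻¹) (d g) := by
  have h := hd g⁻¹ g
  rw [inv_mul_cancel, der_one a d hd] at h
  exact eq_neg_of_add_eq_zero_left h.symm

/-- derivations of a free group are determined by the values on the generators -/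
theorem der_unique (a : FreeGroup Z →* Equiv.Perm Ω) (d e : FreeGroup Z → (Ω →₀ ℤ))
    (hd : ∀ g h, d (g * h) = d g + Finsupp.mapDomain (a g) (d h))
    (he : ∀ g h, e (g * h) = e g + Finsupp.mapDomain (a g) (e h))
    (hde : ∀ z, d (of z) = e (of z)) (g : FreeGroup Z) : d g = e g := by
  induction g using FreeGroup.induction_on with
  | C1 => rw [der_one a d hd, der_one a e he]
  | of z => exact hde z
  | inv_of z _ => rw [der_inv a d hd, der_inv a e he, hde]
  | mul g h hg hh => rw [hd, he, hg, hh]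

end der

/-- left multiplication on `Y × G` -/
def lact (Y G : Type) [Group G] : G →* Equiv.Perm (Y × G) where
  toFun g := ⟨fun p => (p.1, g * p.2), fun p => (p.1, g⁻¹ * p.2), fun p => by simp, fun p => by simp⟩
  map_one' := by
    apply Equiv.ext
    intro p
    show (p.1, 1 * p.2) = p
    rw [one_mul]
  map_mul' g h := by
    apply Equiv.ext
    intro p
    show (p.1, g * h * p.2) = (p.1, g * (h * p.2))
    rw [mul_assoc]

theorem lact_apply (Y G : Type) [Group G] (g : G) (p : Y × G) : lact Y G g p = (p.1, g * p.2) := rfl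

/-- the total Fox derivative -/
def IsFox {Y : Type} (D : FreeGroup Y → (Y × FreeGroup Y →₀ ℤ)) : Prop :=
  (∀ y, D (of y) = Finsupp.single (y, of y) 1) ∧
    ∀ g h, D (g * h) = D g + Finsupp.mapDomain (lact Y (FreeGroup Y) g) (D h)

theorem exists_fox (Y : Type) : ∃ D : FreeGroup Y → (Y × FreeGroup Y →₀ ℤ), IsFox D :=
  exists_der (lact Y (FreeGroup Y)) fun y => Finsupp.single (y, of y) 1

/-- the pairing of `D h` with a difference -/
theorem fox_pair {Y : Type} {D : FreeGroup Y → (Y × FreeGroup Y →₀ ℤ)} (hD : IsFox D)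
    (Ψ : FreeGroup Y → ℤ) (h g : FreeGroup Y) :
    Finsupp.linearCombination ℤ (fun p : Y × FreeGroup Y => Ψ p.2 - Ψ (p.2 * (of p.1)⁻¹))
      (Finsupp.mapDomain (lact Y (FreeGroup Y) g) (D h)) = Ψ (g * h) - Ψ g := by
  induction h using FreeGroup.induction_on generalizing g with
  | C1 =>
    rw [der_one _ D hD.2, Finsupp.mapDomain_zero, map_zero, mul_one, sub_self]
  | of y =>
    rw [hD.1, Finsupp.mapDomain_single, lact_apply, Finsupp.linearCombination_single, one_smul]
    show Ψ (g * of y) - Ψ (g * of y * (of y)⁻¹) = _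
    rw [mul_inv_cancel_right]
  | inv_of y _ =>
    rw [der_inv _ D hD.2, hD.1, Finsupp.mapDomain_single, lact_apply, ← Finsupp.single_neg,
      Finsupp.mapDomain_single, lact_apply, Finsupp.linearCombination_single]
    show (-1 : ℤ) • (Ψ (g * ((of y)⁻¹ * of y)) - Ψ (g * ((of y)⁻¹ * of y) * (of y)⁻¹)) = _
    rw [inv_mul_cancel, mul_one, neg_one_smul, neg_sub]
  | mul h k hh hk =>
    rw [hD.2, Finsupp.mapDomain_add, map_add, hh, ← mapDomain_mul, ← map_mul, hk, mul_assoc]
    ring

/-- homomorphisms from a subgroup to `ℤ` are detected by the Fox derivative -/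
theorem fox_detect {Y : Type} {D : FreeGroup Y → (Y × FreeGroup Y →₀ ℤ)} (hD : IsFox D)
    (N : Subgroup (FreeGroup Y)) (φ : N →* Multiplicative ℤ) :
    ∃ ψ : Y × FreeGroup Y → ℤ, (∀ n ∈ N, ∀ y u, ψ (y, n * u) = ψ (y, u)) ∧
      ∀ n : N, Finsupp.linearCombination ℤ ψ (D n) = Multiplicative.toAdd (φ n) := by
  classical
  let r : FreeGroup Y → FreeGroup Y := fun u =>
    (Quotient.mk (QuotientGroup.rightRel N) u).out
  have hr : ∀ u, u * (r u)⁻¹ ∈ N := by
    intro u
    have h : (QuotientGroup.rightRel N) (r u) u := Quotient.exact (Quotient.out_eq _)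
    rw [QuotientGroup.rightRel_apply] at h
    exact h
  have hrn : ∀ n ∈ N, ∀ u, r (n * u) = r u := by
    intro n hn u
    have h : (Quotient.mk (QuotientGroup.rightRel N) (n * u)) =
        Quotient.mk (QuotientGroup.rightRel N) u := by
      apply Quotient.sound
      show (QuotientGroup.rightRel N) (n * u) u
      rw [QuotientGroup.rightRel_apply]
      have h2 : u * (n * u)⁻¹ = n⁻¹ := by group
      rw [h2]; exact inv_mem hn
    show (Quotient.mk (QuotientGroup.rightRel N) (n * u)).out = _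
    rw [h]
  let Ψ : FreeGroup Y → ℤ := fun u => Multiplicative.toAdd (φ ⟨u * (r u)⁻¹, hr u⟩)
  have hΨ : ∀ (n : FreeGroup Y) (hn : n ∈ N) (u : FreeGroup Y),
      Ψ (n * u) = Multiplicative.toAdd (φ ⟨n, hn⟩) + Ψ u := by
    intro n hn u
    show Multiplicative.toAdd (φ ⟨n * u * (r (n * u))⁻¹, hr (n * u)⟩) =
      Multiplicative.toAdd (φ ⟨n, hn⟩) + Multiplicative.toAdd (φ ⟨u * (r u)⁻¹, hr u⟩)
    rw [← toAdd_mul, ← map_mul]
    congr 2
    apply Subtype.ext
    show n * u * (r (n * u))⁻¹ = n * (u * (r u)⁻¹)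
    rw [hrn n hn, mul_assoc]
  refine ⟨fun p => Ψ p.2 - Ψ (p.2 * (of p.1)⁻¹), ?_, ?_⟩
  · intro n hn y u
    show Ψ (n * u) - Ψ (n * u * (of y)⁻¹) = Ψ u - Ψ (u * (of y)⁻¹)
    rw [mul_assoc, hΨ n hn, hΨ n hn]
    ring
  · rintro ⟨n, hn⟩
    have h := fox_pair hD Ψ n 1
    rw [map_one, mapDomain_one', one_mul] at h
    rw [h]
    have h2 := hΨ n hn 1
    rw [mul_one] at h2
    rw [h2]
    ring

/-- **finitely generated normal subgroups of free groups have finite index** -/
theorem fg_normal_free {Y : Type} (N : Subgroup (FreeGroup Y)) [hN : N.Normal] (hfg : N.FG)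
    (hne : N ≠ ⊥) : N.FiniteIndex := by
  classical
  obtain ⟨D, hD⟩ := exists_fox Y
  let qm : Y × FreeGroup Y → Y × (FreeGroup Y ⧸ N) := fun p => (p.1, (p.2 : FreeGroup Y ⧸ N))
  let act : FreeGroup Y → Y × (FreeGroup Y ⧸ N) → Y × (FreeGroup Y ⧸ N) := fun g p =>
    (p.1, (g : FreeGroup Y ⧸ N) * p.2)
  let E : FreeGroup Y → (Y × (FreeGroup Y ⧸ N) →₀ ℤ) := fun g => Finsupp.mapDomain qm (D g)
  have hE : ∀ g h, E (g * h) = E g + Finsupp.mapDomain (act g) (E h) := by
    intro g h
    show Finsupp.mapDomain qm (D (g * h)) = Finsupp.mapDomain qm (D g) +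
      Finsupp.mapDomain (act g) (Finsupp.mapDomain qm (D h))
    rw [hD.2, Finsupp.mapDomain_add, ← Finsupp.mapDomain_comp, ← Finsupp.mapDomain_comp]
    rfl
  have hactN : ∀ n ∈ N, act n = id := by
    intro n hn
    funext p
    show (p.1, (n : FreeGroup Y ⧸ N) * p.2) = p
    rw [(QuotientGroup.eq_one_iff n).2 hn, one_mul]
  have hact1 : act 1 = id := hactN 1 (one_mem N)
  have hE1 : E 1 = 0 := by
    have h := hE 1 1
    rw [one_mul, hact1, Finsupp.mapDomain_id] at h
    exact add_eq_left.1 h.symm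
  have hEN : ∀ n ∈ N, ∀ h, E (n * h) = E n + E h := by
    intro n hn h
    rw [hE, hactN n hn, Finsupp.mapDomain_id]
  have hEinv : ∀ n ∈ N, E n⁻¹ = - E n := by
    intro n hn
    have h := hEN n hn n⁻¹
    rw [mul_inv_cancel, hE1] at h
    exact eq_neg_of_add_eq_zero_right h.symm
  have hEconj : ∀ g, ∀ n ∈ N, E (g * n * g⁻¹) = Finsupp.mapDomain (act g) (E n) := by
    intro g n hn
    have h1 : E (g * n * g⁻¹) = E g + Finsupp.mapDomain (act g) (E n + E g⁻¹) := by
      rw [mul_assoc, hE, hEN n hn]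
    have h2 : E g + Finsupp.mapDomain (act g) (E g⁻¹) = 0 := by
      rw [← hE, mul_inv_cancel, hE1]
    rw [h1, Finsupp.mapDomain_add]
    calc E g + (Finsupp.mapDomain (act g) (E n) + Finsupp.mapDomain (act g) (E g⁻¹)) =
        (E g + Finsupp.mapDomain (act g) (E g⁻¹)) + Finsupp.mapDomain (act g) (E n) := by abel
      _ = _ := by rw [h2, zero_add]
  -- the supports of the elements of `N` lie in a finite set
  obtain ⟨T, hT⟩ := hfg
  let S : Finset (Y × (FreeGroup Y ⧸ N)) := T.biUnion fun t => (E t).support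
  have hS : ∀ n ∈ N, (E n).support ⊆ S := by
    intro n hn
    rw [← hT] at hn
    have hTN : ∀ x ∈ Subgroup.closure (T : Set (FreeGroup Y)), x ∈ N := fun x hx => by
      rw [← hT]; exact hx
    induction hn using Subgroup.closure_induction with
    | mem x hx => exact Finset.subset_biUnion_of_mem (fun t => (E t).support) hx
    | one => rw [hE1]; simp
    | mul x y hx _ hxS hyS =>
      rw [hEN x (hTN x hx)]
      exact (Finsupp.support_add).trans (Finset.union_subset hxS hyS)
    | inv x hx hxS => rw [hEinv x (hTN x hx), Finsupp.support_neg]; exact hxS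
  -- a nontrivial value
  obtain ⟨n, hn, hnE⟩ : ∃ n ∈ N, E n ≠ 0 := by
    let e : N ≃* FreeGroup (IsFreeGroup.Generators N) := IsFreeGroup.toFreeGroup N
    have hZ : Nonempty (IsFreeGroup.Generators N) := by
      by_contra hZ
      apply hne
      rw [Subgroup.eq_bot_iff_forall]
      intro x hx
      have hemp : IsEmpty (IsFreeGroup.Generators N) := not_nonempty_iff.1 hZ
      have h1 : e ⟨x, hx⟩ = e 1 := by
        rw [map_one]
        exact Subsingleton.elim _ _
      exact congrArg Subtype.val (e.injective h1)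
    obtain ⟨z⟩ := hZ
    let φ : N →* Multiplicative ℤ :=
      (FreeGroup.lift fun _ => Multiplicative.ofAdd (1 : ℤ)).comp e.toMonoidHom
    obtain ⟨ψ, hψ, hψD⟩ := fox_detect hD N φ
    let n : N := e.symm (of z)
    have hφ : φ n = Multiplicative.ofAdd 1 := by
      show (FreeGroup.lift fun _ => Multiplicative.ofAdd (1 : ℤ)) (e (e.symm (of z))) = _
      rw [e.apply_symm_apply, FreeGroup.lift_apply_of]
    refine ⟨n, n.2, fun h0 => ?_⟩
    have hψ' : ∃ ψ' : Y × (FreeGroup Y ⧸ N) → ℤ, ∀ p, ψ p = ψ' (qm p) := by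
      refine ⟨fun p => ψ (p.1, p.2.out), fun p => ?_⟩
      show ψ (p.1, p.2) = ψ (p.1, ((p.2 : FreeGroup Y ⧸ N)).out)
      have h1 : ((p.2 : FreeGroup Y ⧸ N)).out⁻¹ * p.2 ∈ N :=
        QuotientGroup.eq.1 (QuotientGroup.out_eq' _)
      have h2 : p.2 * ((p.2 : FreeGroup Y ⧸ N)).out⁻¹ ∈ N := by
        have h3 := hN.conj_mem _ h1 ((p.2 : FreeGroup Y ⧸ N)).out
        have h4 : ((p.2 : FreeGroup Y ⧸ N)).out * (((p.2 : FreeGroup Y ⧸ N)).out⁻¹ * p.2) *
            ((p.2 : FreeGroup Y ⧸ N)).out⁻¹ = p.2 * ((p.2 : FreeGroup Y ⧸ N)).out⁻¹ := by group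
        rwa [h4] at h3
      have h3 := hψ _ h2 p.1 ((p.2 : FreeGroup Y ⧸ N)).out
      rw [inv_mul_cancel_right] at h3
      exact h3
    obtain ⟨ψ', hψ'⟩ := hψ'
    have h1 : Finsupp.linearCombination ℤ ψ' (E n) = 1 := by
      show Finsupp.linearCombination ℤ ψ' (Finsupp.mapDomain qm (D n)) = 1
      rw [Finsupp.linearCombination_mapDomain]
      have h2 : (ψ' ∘ qm) = ψ := funext fun p => (hψ' p).symm
      rw [h2, hψD, hφ]; rfl
    rw [h0, map_zero] at h1
    exact zero_ne_one h1
  obtain ⟨ω, hω⟩ : ∃ ω, E n ω ≠ 0 := by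
    by_contra hcon
    push Not at hcon
    exact hnE (Finsupp.ext hcon)
  have hfin : Finite (FreeGroup Y ⧸ N) := by
    have hmem : ∀ c : FreeGroup Y ⧸ N, (ω.1, c) ∈ S := by
      intro c
      obtain ⟨g, hg⟩ := QuotientGroup.mk_surjective (c * (ω.2)⁻¹)
      have h1 := hS _ (hN.conj_mem n hn g)
      apply h1
      rw [Finsupp.mem_support_iff, hEconj g n hn]
      have h2 : act g ω = (ω.1, c) := by
        show (ω.1, (g : FreeGroup Y ⧸ N) * ω.2) = _
        rw [hg, inv_mul_cancel_right]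
      rw [← h2, Finsupp.mapDomain_apply]
      · exact hω
      · intro p p' hpp
        have h3 : ((p.1, (g : FreeGroup Y ⧸ N) * p.2) : Y × (FreeGroup Y ⧸ N)) =
          (p'.1, (g : FreeGroup Y ⧸ N) * p'.2) := hpp
        exact Prod.ext (Prod.mk.inj h3).1 (mul_left_cancel (Prod.mk.inj h3).2)
    exact Finite.of_injective (fun c => (⟨_, hmem c⟩ : S)) fun c c' h =>
      congrArg Prod.snd (congrArg Subtype.val h)
  exact Subgroup.finiteIndex_of_finite_quotient

end Pool.Agent.H20.SK
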