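import Mathlib

/-!
Classes of groups which are closed under subgroups, overgroups of finite index and extensions with abelian
kernel: extensions with finite, solvable and virtually solvable kernel.
-/

set_option autoImplicit false

namespace Pool.Agent.H20.SK

open scoped Pointwise commutatorElement

/-- closed under subgroups (isomorphic embeddings), overgroups of finite index, extensions with abelian
kernel -/
structure Cl (C : ∀ (G : Type) [Group G], Prop) : Prop where
  sub : ∀ (A B : Type) [Group A] [Group B] (f : A →* B), Function.Injective f → C B → C A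
  fin : ∀ (H : Type) [Group H] (K : Subgroup H), K.FiniteIndex → C K → C H
  abel : ∀ (H : Type) [Group H] (K : Subgroup H) [K.Normal], (∀ a ∈ K, ∀ c ∈ K, a * c = c * a) →
    C (H ⧸ K) → C H

/-- every extension with a kernel isomorphic to `L` and with quotient in `C` is in `C` -/
def Good (C : ∀ (G : Type) [Group G], Prop) (L : Type) [Group L] : Prop :=
  ∀ (H : Type) [Group H] (K : Subgroup H) [K.Normal], Nonempty (K ≃* L) → C (H ⧸ K) → C H

variable {C : ∀ (G : Type) [Group G], Prop}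

theorem quot_embed (hC : Cl C) {Γ Δ : Type} [Group Γ] [Group Δ] (π : Γ →* Δ) (K : Subgroup Γ)
    [K.Normal] (hK : ∀ g, π g = 1 ↔ g ∈ K) (h : C Δ) : C (Γ ⧸ K) := by
  refine hC.sub _ _ (QuotientGroup.lift K π fun g hg => (hK g).2 hg) ?_ h
  rw [injective_iff_map_eq_one]
  intro q hq
  obtain ⟨z, rfl⟩ := QuotientGroup.mk_surjective q
  exact (QuotientGroup.eq_one_iff _).2 ((hK z).1 hq)

theorem quot_quot (hC : Cl C) {Γ : Type} [Group Γ] (A B : Subgroup Γ) [A.Normal] [hB : B.Normal]
    (hAB : A ≤ B) (h : C (Γ ⧸ B)) (hn : (B.map (QuotientGroup.mk' A)).Normal) :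
    C ((Γ ⧸ A) ⧸ (B.map (QuotientGroup.mk' A))) :=
  hC.sub _ _ (QuotientGroup.quotientQuotientEquivQuotient A B hAB).toMonoidHom
    (QuotientGroup.quotientQuotientEquivQuotient A B hAB).injective h

/-- one step with a good kernel -/
theorem step_good (hC : Cl C) {Γ : Type} [Group Γ] (A B : Subgroup Γ) [A.Normal] [hB : B.Normal]
    (hAB : A ≤ B) {L : Type} [Group L] (hL : Good C L) (ψ : B →* L) (hψ : Function.Surjective ψ)
    (hk : ∀ b : B, ψ b = 1 ↔ (b : Γ) ∈ A) (h : C (Γ ⧸ B)) : C (Γ ⧸ A) := by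
  have hn : (B.map (QuotientGroup.mk' A)).Normal :=
    Subgroup.Normal.map hB _ (QuotientGroup.mk'_surjective _)
  refine hL (Γ ⧸ A) (B.map (QuotientGroup.mk' A)) ?_ (quot_quot hC A B hAB h hn)
  let θ : B →* (B.map (QuotientGroup.mk' A)) :=
    ((QuotientGroup.mk' A).comp B.subtype).codRestrict _ fun b => ⟨b, b.2, rfl⟩
  have hθ : Function.Surjective θ := by
    rintro ⟨_, b, hb, rfl⟩
    exact ⟨⟨b, hb⟩, rfl⟩
  have hker : θ.ker = ψ.ker := by
    ext b
    rw [MonoidHom.mem_ker, MonoidHom.mem_ker, hk]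
    constructor
    · intro h1
      have h2 : ((b : Γ) : Γ ⧸ A) = 1 := congrArg Subtype.val h1
      exact (QuotientGroup.eq_one_iff _).1 h2
    · intro h1
      exact Subtype.ext ((QuotientGroup.eq_one_iff _).2 h1)
  exact ⟨((QuotientGroup.quotientKerEquivOfSurjective θ hθ).symm.trans
    (QuotientGroup.quotientMulEquivOfEq hker)).trans
    (QuotientGroup.quotientKerEquivOfSurjective ψ hψ)⟩

/-- one step with an abelian kernel -/
theorem step_abel (hC : Cl C) {Γ : Type} [Group Γ] (A B : Subgroup Γ) [A.Normal] [hB : B.Normal]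
    (hAB : A ≤ B) (hcomm : ⁅B, B⁆ ≤ A) (h : C (Γ ⧸ B)) : C (Γ ⧸ A) := by
  have hn : (B.map (QuotientGroup.mk' A)).Normal :=
    Subgroup.Normal.map hB _ (QuotientGroup.mk'_surjective _)
  refine hC.abel (Γ ⧸ A) (B.map (QuotientGroup.mk' A)) ?_ (quot_quot hC A B hAB h hn)
  rintro _ ⟨a, ha, rfl⟩ _ ⟨c, hc, rfl⟩
  rw [← map_mul, ← map_mul]
  refine QuotientGroup.eq.2 (hcomm ?_)
  have e : (a * c)⁻¹ * (c * a) = ⁅c⁻¹, a⁻¹⁆ := by
    rw [commutatorElement_def]; group
  rw [e]
  exact Subgroup.commutator_mem_commutator (inv_mem hc) (inv_mem ha)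

/-- extensions with finite kernel -/
theorem fin_ker (hC : Cl C) {H : Type} [Group H] (F : Subgroup H) [hF : F.Normal] [Finite F]
    (h : C (H ⧸ F)) : C H := by
  let ψ : H →* MulAut F := MulAut.conjNormal
  have hfin : Finite (MulAut F) := Finite.of_injective (fun (f : MulAut F) => (f : F → F))
    (fun f g hfg => MulEquiv.ext (congrFun hfg))
  let Z : Subgroup H := ψ.ker
  have hZ : Z.FiniteIndex := Subgroup.finiteIndex_ker ψ
  refine hC.fin H Z hZ ?_
  let K : Subgroup Z := F.subgroupOf Z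
  have hK : K.Normal := inferInstance
  refine hC.abel Z K ?_ ?_
  · intro a ha c hc
    apply Subtype.ext
    have h1 : (a : H) ∈ Z := a.2
    have h2 : ψ a ⟨c, hc⟩ = ⟨c, hc⟩ := by
      rw [MonoidHom.mem_ker.1 h1]; rfl
    have h3 := congrArg Subtype.val h2
    have h4 : (a : H) * c * (a : H)⁻¹ = c := h3
    show (a : H) * c = c * a
    conv_rhs => rw [← h4]
    group
  · refine quot_embed hC ((QuotientGroup.mk' F).comp Z.subtype) K ?_ h
    intro g
    exact QuotientGroup.eq_one_iff _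

/-- one step with a finite kernel -/
theorem step_fin (hC : Cl C) {Γ : Type} [Group Γ] (A B : Subgroup Γ) [A.Normal] [hB : B.Normal]
    (hAB : A ≤ B) (hfi : A.relIndex B ≠ 0) (h : C (Γ ⧸ B)) : C (Γ ⧸ A) := by
  have hn : (B.map (QuotientGroup.mk' A)).Normal :=
    Subgroup.Normal.map hB _ (QuotientGroup.mk'_surjective _)
  have hfin : Finite (B.map (QuotientGroup.mk' A)) := by
    have h1 : Finite (B ⧸ A.subgroupOf B) := by
      have h2 : (A.subgroupOf B).FiniteIndex := ⟨hfi⟩
      infer_instance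
    have h2 : ∀ y : (B.map (QuotientGroup.mk' A)), ∃ b : B, ((b : Γ) : Γ ⧸ A) = y := by
      rintro ⟨_, b, hb, rfl⟩
      exact ⟨⟨b, hb⟩, rfl⟩
    choose r hr using h2
    refine Finite.of_injective (fun y => ((r y : B) : B ⧸ A.subgroupOf B)) ?_
    intro y z hyz
    have h3 := QuotientGroup.eq.1 hyz
    apply Subtype.ext
    rw [← hr y, ← hr z, QuotientGroup.eq]
    exact h3
  exact fin_ker hC (B.map (QuotientGroup.mk' A)) (quot_quot hC A B hAB h hn)

/-- the derived series of a subgroup, in the ambient group -/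
def D {Γ : Type} [Group Γ] (R : Subgroup Γ) : ℕ → Subgroup Γ
  | 0 => R
  | k + 1 => ⁅D R k, D R k⁆

theorem D_map {Γ Δ : Type} [Group Γ] [Group Δ] (π : Γ →* Δ) (R : Subgroup Γ) (k : ℕ) :
    D (R.map π) k = (D R k).map π := by
  induction k with
  | zero => rfl
  | succ k ih => rw [D, D, ih, Subgroup.map_commutator]

theorem D_mono {Γ : Type} [Group Γ] {R S : Subgroup Γ} (h : R ≤ S) (k : ℕ) : D R k ≤ D S k := by
  induction k with
  | zero => exact h
  | succ k ih => exact Subgroup.commutator_mono ih ih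

theorem D_add {Γ : Type} [Group Γ] (R : Subgroup Γ) (j k : ℕ) : D R (j + k) = D (D R j) k := by
  induction k with
  | zero => rfl
  | succ k ih =>
    show ⁅D R (j + k), D R (j + k)⁆ = ⁅D (D R j) k, D (D R j) k⁆
    rw [ih]

instance D_normal {Γ : Type} [Group Γ] (R : Subgroup Γ) [hR : R.Normal] (k : ℕ) : (D R k).Normal := by
  induction k with
  | zero => exact hR
  | succ k ih => exact Subgroup.commutator_normal _ _

theorem D_succ_le {Γ : Type} [Group Γ] (R : Subgroup Γ) [hR : R.Normal] (k : ℕ) :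
    D R (k + 1) ≤ D R k :=
  Subgroup.commutator_le_left _ _

/-- extensions with solvable kernel -/
theorem sol_ker (hC : Cl C) {Γ : Type} [Group Γ] (R : Subgroup Γ) [hR : R.Normal] (k : ℕ)
    (hk : D R k = ⊥) (h : C (Γ ⧸ R)) : C Γ := by
  have h1 : ∀ j, C (Γ ⧸ D R j) := by
    intro j
    induction j with
    | zero => exact h
    | succ j ih => exact step_abel hC (D R (j + 1)) (D R j) (D_succ_le R j) le_rfl ih
  refine hC.sub _ _ (QuotientGroup.mk' (D R k)) ?_ (h1 k)
  rw [injective_iff_map_eq_one]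
  intro a ha
  have h2 : a ∈ D R k := (QuotientGroup.eq_one_iff _).1 ha
  rw [hk] at h2
  exact Subgroup.mem_bot.1 h2

/-- a group which is virtually solvable has a characteristic solvable subgroup of finite index -/
theorem radical {V : Type} [Group V] (R₀ : Subgroup V) [hn : R₀.Normal] (hf : R₀.index ≠ 0) (k₀ : ℕ)
    (hk : D R₀ k₀ = ⊥) : ∃ (R : Subgroup V) (k : ℕ), R.Characteristic ∧ R.index ≠ 0 ∧ D R k = ⊥ := by
  classical
  let P : ℕ → Prop := fun d => d ≠ 0 ∧ ∃ R : Subgroup V, R.Normal ∧ R.index = d ∧ ∃ k, D R k = ⊥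
  have hP : ∃ d, P d := ⟨R₀.index, hf, R₀, hn, rfl, k₀, hk⟩
  obtain ⟨hd, R, hRn, hRd, k, hRk⟩ := Nat.find_spec hP
  refine ⟨R, k, ?_, by rw [hRd]; exact hd, hRk⟩
  rw [Subgroup.characteristic_iff_map_le]
  intro φ
  let R' : Subgroup V := R.map φ.toMonoidHom
  have hR'n : R'.Normal := Subgroup.Normal.map hRn _ φ.surjective
  have hR'k : D R' k = ⊥ := by
    rw [D_map, hRk, Subgroup.map_bot]
  have hS : D (R ⊔ R') (k + k) = ⊥ := by
    rw [D_add, eq_bot_iff]
    have h1 : D (R ⊔ R') k ≤ R := by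
      have h2 : (D (R ⊔ R') k).map (QuotientGroup.mk' R) = ⊥ := by
        rw [← D_map, Subgroup.map_sup]
        have h3 : R.map (QuotientGroup.mk' R) = ⊥ := by
          rw [Subgroup.map_eq_bot_iff, QuotientGroup.ker_mk']
        rw [h3, bot_sup_eq, D_map, hR'k, Subgroup.map_bot]
      rw [Subgroup.map_eq_bot_iff, QuotientGroup.ker_mk'] at h2
      exact h2
    exact (D_mono h1 k).trans hRk.le
  have hidx : (R ⊔ R').index ∣ R.index := Subgroup.index_dvd_of_le le_sup_left
  have hne : (R ⊔ R').index ≠ 0 := by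
    intro h0
    rw [h0, zero_dvd_iff] at hidx
    rw [hRd] at hidx
    exact hd hidx
  have hmin : Nat.find hP ≤ (R ⊔ R').index :=
    Nat.find_min' hP ⟨hne, R ⊔ R', Subgroup.sup_normal R R', rfl, k + k, hS⟩
  have heq : (R ⊔ R').index = R.index := by
    refine le_antisymm (Nat.le_of_dvd (Nat.pos_of_ne_zero (by rw [hRd]; exact hd)) hidx) ?_
    rw [hRd]; exact hmin
  have h5 : R.relIndex (R ⊔ R') * (R ⊔ R').index = R.index := Subgroup.relIndex_mul_index le_sup_left
  rw [heq] at h5
  have h6 : R.relIndex (R ⊔ R') = 1 := by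
    have h7 : 0 < R.index := Nat.pos_of_ne_zero (by rw [hRd]; exact hd)
    exact Nat.eq_of_mul_eq_mul_right h7 (by rw [h5, one_mul])
  rw [Subgroup.relIndex_eq_one] at h6
  exact le_sup_right.trans h6

/-- extensions with virtually solvable kernel -/
theorem virt_ker (hC : Cl C) {Γ : Type} [Group Γ] (V : Subgroup Γ) [hV : V.Normal]
    (R₀ : Subgroup V) [hn : R₀.Normal] (hf : R₀.index ≠ 0) (k₀ : ℕ) (hk : D R₀ k₀ = ⊥)
    (h : C (Γ ⧸ V)) : C Γ := by
  obtain ⟨R, k, hch, hRf, hRk⟩ := radical R₀ hf k₀ hk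
  let T : Subgroup Γ := R.map V.subtype
  have hT : T.Normal := inferInstance
  have hTV : T ≤ V := Subgroup.map_subtype_le _
  have hrel : T.relIndex V ≠ 0 := by
    have h1 : T.subgroupOf V = R := by
      show (R.map V.subtype).comap V.subtype = R
      exact Subgroup.comap_map_eq_self_of_injective V.subtype_injective R
    show (T.subgroupOf V).index ≠ 0
    rw [h1]; exact hRf
  refine sol_ker hC T k ?_ (step_fin hC T V hTV hrel h)
  rw [D_map, hRk, Subgroup.map_bot]

end Pool.Agent.H20.SK
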