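import Mathlib

/-!
Subdirect products of commutative transitive groups: the kernels of the coordinates are permuted by all
automorphisms.
-/

set_option autoImplicit false

namespace Pool.Agent.H20.SK

open scoped commutatorElement

/-- commutative transitive groups -/
def CT (H : Type) [Group H] : Prop :=
  ∀ x y z : H, y ≠ 1 → x * y = y * x → y * z = z * y → x * z = z * x

variable {I : Type} {H : I → Type} [∀ i, Group (H i)] {A : Type} [Group A]

/-- the elements of the `i`-th factor which lie in the image of `f` -/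
def LS (f : A →* (∀ i, H i)) (i : I) : Subgroup (H i) where
  carrier := {h | ∃ a, f a i = h ∧ ∀ j, j ≠ i → f a j = 1}
  mul_mem' := by
    rintro x y ⟨a, ha, ha'⟩ ⟨b, hb, hb'⟩
    refine ⟨a * b, ?_, ?_⟩
    · rw [map_mul, Pi.mul_apply, ha, hb]
    · intro j hj
      rw [map_mul, Pi.mul_apply, ha' j hj, hb' j hj, one_mul]
  one_mem' := ⟨1, by rw [map_one, Pi.one_apply], fun j _ => by rw [map_one, Pi.one_apply]⟩
  inv_mem' := by
    rintro x ⟨a, ha, ha'⟩
    refine ⟨a⁻¹, ?_, ?_⟩
    · rw [map_inv, Pi.inv_apply, ha]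
    · intro j hj
      rw [map_inv, Pi.inv_apply, ha' j hj, inv_one]

/-- the elements of `A` whose coordinates in `S` lie in the subgroups `LS f i` and whose other coordinates
are trivial -/
def MS (f : A →* (∀ i, H i)) (S : Set I) : Subgroup A where
  carrier := {a | (∀ i ∈ S, f a i ∈ LS f i) ∧ ∀ i, i ∉ S → f a i = 1}
  mul_mem' := by
    rintro a b ⟨ha, ha'⟩ ⟨hb, hb'⟩
    refine ⟨fun i hi => ?_, fun i hi => ?_⟩
    · rw [map_mul, Pi.mul_apply]; exact mul_mem (ha i hi) (hb i hi)
    · rw [map_mul, Pi.mul_apply, ha' i hi, hb' i hi, one_mul]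
  one_mem' := by
    refine ⟨fun i _ => ?_, fun i _ => ?_⟩
    · rw [map_one, Pi.one_apply]; exact one_mem _
    · rw [map_one, Pi.one_apply]
  inv_mem' := by
    rintro a ⟨ha, ha'⟩
    refine ⟨fun i hi => ?_, fun i hi => ?_⟩
    · rw [map_inv, Pi.inv_apply]; exact inv_mem (ha i hi)
    · rw [map_inv, Pi.inv_apply, ha' i hi, inv_one]

/-- the hypotheses on `f` -/
structure Sub (f : A →* (∀ i, H i)) (m : ℕ) : Prop where
  ct : ∀ i, CT (H i)
  ker : ∀ a, f a = 1 → a ∈ Subgroup.upperCentralSeries A m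
  nc : ∀ i, ∃ a b, (∀ j, j ≠ i → f a j = 1) ∧ (∀ j, j ≠ i → f b j = 1) ∧ f (a * b) i ≠ f (b * a) i

theorem ct_one {H : Type} [Group H] (h : CT H) {x y z : H} (hxz : x * z ≠ z * x) (h1 : x * y = y * x)
    (h2 : y * z = z * y) : y = 1 := by
  by_contra hy
  exact hxz (h x y z hy h1 h2)

/-- the elements of the upper central series have trivial coordinates -/
theorem ucs_one {f : A →* (∀ i, H i)} {m : ℕ} (hf : Sub f m) (l : ℕ) {a : A}
    (ha : a ∈ Subgroup.upperCentralSeries A l) : f a = 1 := by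
  induction l generalizing a with
  | zero =>
    rw [Subgroup.upperCentralSeries_zero, Subgroup.mem_bot] at ha
    rw [ha, map_one]
  | succ l ih =>
    rw [Subgroup.mem_upperCentralSeries_succ_iff] at ha
    have hcomm : ∀ x, f a * f x = f x * f a := by
      intro x
      have h1 := ih (ha x)
      have h2 : a * x = ⁅a, x⁆ * (x * a) := by
        rw [commutatorElement_def]; group
      rw [← map_mul, h2, map_mul, h1, one_mul, map_mul]
    funext i
    obtain ⟨x, y, _, _, hxy⟩ := hf.nc i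
    rw [map_mul, map_mul, Pi.mul_apply, Pi.mul_apply] at hxy
    exact ct_one (hf.ct i) hxy (congrFun (hcomm x) i).symm (congrFun (hcomm y) i)

/-- the kernel is preserved by all automorphisms -/
theorem ker_char {f : A →* (∀ i, H i)} {m : ℕ} (hf : Sub f m) (φ : A ≃* A) {a : A} (ha : f a = 1) :
    f (φ a) = 1 := by
  refine ucs_one hf m ?_
  have h1 := hf.ker a ha
  rw [← Subgroup.comap_upperCentralSeries φ m] at h1
  exact h1

theorem perm1 {f : A →* (∀ i, H i)} {m : ℕ} (hf : Sub f m) (φ : A ≃* A) (i : I) :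
    ∃ j, ∀ x, f x i = 1 → f (φ x) j = 1 := by
  obtain ⟨a, b, ha, hb, hab⟩ := hf.nc i
  -- the commutator is not in the kernel
  have h1 : f (φ (a * b * a⁻¹ * b⁻¹)) ≠ 1 := by
    intro h0
    have h3 := ker_char hf φ.symm h0
    rw [φ.symm_apply_apply] at h3
    have h4 := congrFun h3 i
    apply hab
    have h5 : a * b = (a * b * a⁻¹ * b⁻¹) * (b * a) := by group
    rw [h5, map_mul, Pi.mul_apply, h4, Pi.one_apply, one_mul]
  obtain ⟨j, hj⟩ : ∃ j, f (φ (a * b * a⁻¹ * b⁻¹)) j ≠ 1 := by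
    by_contra hcon
    push Not at hcon
    exact h1 (funext hcon)
  have hnc : f (φ a) j * f (φ b) j ≠ f (φ b) j * f (φ a) j := by
    intro h0
    apply hj
    rw [map_mul, map_mul, map_mul, map_inv, map_inv, map_mul, map_mul, map_mul, map_inv, map_inv,
      Pi.mul_apply, Pi.mul_apply, Pi.mul_apply, Pi.inv_apply, Pi.inv_apply, h0]
    group
  -- elements with trivial `i`-th coordinate commute with `a` modulo the kernel
  have key : ∀ c, (∀ j, j ≠ i → f c j = 1) → ∀ x, f x i = 1 →
      f (φ x) j * f (φ c) j = f (φ c) j * f (φ x) j := by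
    intro c hc x hx
    have h2 : f (x * c * x⁻¹ * c⁻¹) = 1 := by
      funext k
      rw [map_mul, map_mul, map_mul, map_inv, map_inv, Pi.mul_apply, Pi.mul_apply, Pi.mul_apply,
        Pi.inv_apply, Pi.inv_apply, Pi.one_apply]
      by_cases hk : k = i
      · subst hk; rw [hx]; group
      · rw [hc k hk]; group
    have h5 := congrFun (ker_char hf φ h2) j
    have h6 : φ x * φ c = φ (x * c * x⁻¹ * c⁻¹) * (φ c * φ x) := by
      rw [map_mul, map_mul, map_mul, map_inv, map_inv]; group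
    have h7 := congrFun (congrArg f h6) j
    rw [map_mul, map_mul, Pi.mul_apply, Pi.mul_apply, h5, Pi.one_apply, one_mul, map_mul,
      Pi.mul_apply] at h7
    exact h7
  refine ⟨j, fun x hx => ?_⟩
  refine ct_one (hf.ct j) hnc ?_ ?_
  · exact (key a ha x hx).symm
  · exact key b hb x hx

theorem le_eq {f : A →* (∀ i, H i)} {m : ℕ} (hf : Sub f m) {i j : I} (h : ∀ x, f x i = 1 → f x j = 1) :
    i = j := by
  by_contra hij
  obtain ⟨a, b, ha, _, hab⟩ := hf.nc j
  have h1 : f a j = 1 := h a (ha i hij)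
  apply hab
  rw [map_mul, map_mul, Pi.mul_apply, Pi.mul_apply, h1, one_mul, mul_one]

/-- **automorphisms permute the coordinates** -/
theorem perm {f : A →* (∀ i, H i)} {m : ℕ} (hf : Sub f m) (φ : A ≃* A) :
    ∃ σ : Equiv.Perm I, ∀ i x, f (φ x) (σ i) = 1 ↔ f x i = 1 := by
  choose s hs using perm1 hf φ
  choose t ht using perm1 hf φ.symm
  have h1 : ∀ i, t (s i) = i := by
    intro i
    refine (le_eq hf (i := i) (j := t (s i)) ?_).symm
    intro x hx
    have h2 := ht (s i) (φ x) (hs i x hx)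
    rwa [φ.symm_apply_apply] at h2
  have h2 : ∀ j, s (t j) = j := by
    intro j
    refine (le_eq hf (i := j) (j := s (t j)) ?_).symm
    intro x hx
    have h2 := hs (t j) (φ.symm x) (ht j x hx)
    rwa [φ.apply_symm_apply] at h2
  refine ⟨⟨s, t, h1, h2⟩, fun i x => ⟨fun h => ?_, fun h => hs i x h⟩⟩
  have h3 := ht (s i) (φ x) h
  rw [φ.symm_apply_apply, h1] at h3
  exact h3

/-- automorphisms which preserve the coordinates up to a permutation preserve `MS` -/
theorem MS_map {f : A →* (∀ i, H i)} (φ : A → A) (hmul : ∀ x y, φ (x * y) = φ x * φ y)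
    (σ : Equiv.Perm I) (hσ : ∀ i x, f x i = 1 → f (φ x) (σ i) = 1) (S T : Set I)
    (hST : ∀ i, σ i ∈ T ↔ i ∈ S) {a : A} (ha : a ∈ MS f S) : φ a ∈ MS f T := by
  obtain ⟨h1, h2⟩ := ha
  have hinv : ∀ x y, φ (x * y⁻¹) = φ x * (φ y)⁻¹ := by
    intro x y
    rw [eq_mul_inv_iff_mul_eq, ← hmul, inv_mul_cancel_right]
  refine ⟨fun i hi => ?_, fun i hi => ?_⟩
  · obtain ⟨i', rfl⟩ := σ.surjective i
    obtain ⟨m, hm, hm'⟩ := h1 i' ((hST i').1 hi)
    refine ⟨φ m, ?_, ?_⟩
    · have h3 : f (a * m⁻¹) i' = 1 := by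
        rw [map_mul, map_inv, Pi.mul_apply, Pi.inv_apply, hm, mul_inv_cancel]
      have h4 := hσ i' _ h3
      rw [hinv, map_mul, map_inv, Pi.mul_apply, Pi.inv_apply, mul_inv_eq_one] at h4
      exact h4.symm
    · intro j hj
      obtain ⟨j', rfl⟩ := σ.surjective j
      exact hσ j' m (hm' j' fun h => hj (by rw [h]))
  · obtain ⟨i', rfl⟩ := σ.surjective i
    exact hσ i' a (h2 i' fun h => hi ((hST i').2 h))

end Pool.Agent.H20.SK
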