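import Mathlib
import Pool.Agent.H20.SK.Cl
import Pool.Agent.H20.SK.Coord

/-!
Extensions whose kernel is a subdirect product of commutative transitive groups.
-/

set_option autoImplicit false

namespace Pool.Agent.H20.SK

variable {C : ∀ (G : Type) [Group G], Prop}
variable {I : Type} {H : I → Type} [∀ i, Group (H i)] {A Γ : Type} [Group A] [Group Γ]

/-- `A` is a normal subgroup of `Γ` -/
structure Emb (ι : A →* Γ) : Prop where
  inj : Function.Injective ι
  conj : ∀ g a, ∃ b, ι b = g * ι a * g⁻¹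

/-- conjugation by `g` on `A` -/
noncomputable def cj {ι : A →* Γ} (h : Emb ι) (g : Γ) : A ≃* A where
  toFun a := (h.conj g a).choose
  invFun a := (h.conj g⁻¹ a).choose
  left_inv a := by
    apply h.inj
    rw [(h.conj g⁻¹ _).choose_spec, (h.conj g a).choose_spec]; group
  right_inv a := by
    apply h.inj
    rw [(h.conj g _).choose_spec, (h.conj g⁻¹ a).choose_spec]; group
  map_mul' a b := by
    apply h.inj
    rw [(h.conj g (a * b)).choose_spec, map_mul ι (h.conj g a).choose (h.conj g b).choose,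
      (h.conj g a).choose_spec, (h.conj g b).choose_spec, map_mul ι a b]; group

theorem cj_spec {ι : A →* Γ} (h : Emb ι) (g : Γ) (a : A) : ι (cj h g a) = g * ι a * g⁻¹ :=
  (h.conj g a).choose_spec

theorem cj_eq {ι : A →* Γ} (h : Emb ι) (g : Γ) (a b : A) (hb : ι b = g * ι a * g⁻¹) :
    cj h g a = b :=
  h.inj ((cj_spec h g a).trans hb.symm)

/-- the subgroups `MS f S` in `Γ` -/
def MG (ι : A →* Γ) (f : A →* (∀ i, H i)) (S : Set I) : Subgroup Γ := (MS f S).map ι

theorem MG_normal {ι : A →* Γ} (h : Emb ι) {f : A →* (∀ i, H i)}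
    (hp : ∀ g i a, f a i = 1 → f (cj h g a) i = 1) (S : Set I) : (MG ι f S).Normal := by
  refine ⟨?_⟩
  rintro _ ⟨a, ha, rfl⟩ g
  exact ⟨cj h g a, MS_map (fun a => cj h g a) (map_mul _) (Equiv.refl I) (hp g) S S
    (fun i => Iff.rfl) ha, cj_spec h g a⟩

theorem MG_univ_normal {ι : A →* Γ} (h : Emb ι) {f : A →* (∀ i, H i)} {m : ℕ} (hf : Sub f m) :
    (MG ι f Set.univ).Normal := by
  refine ⟨?_⟩
  rintro _ ⟨a, ha, rfl⟩ g
  obtain ⟨σ, hσ⟩ := perm hf (cj h g)
  exact ⟨cj h g a, MS_map (fun a => cj h g a) (map_mul _) σ (fun i x => (hσ i x).2) _ _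
    (fun i => Iff.rfl) ha, cj_spec h g a⟩

/-- one coordinate -/
theorem chain_step (hC : Cl C) {ι : A →* Γ} (h : Emb ι) {f : A →* (∀ i, H i)}
    (S T : Set I) (k : I) (hkS : k ∉ S) (hT : ∀ i, i ∈ T ↔ i = k ∨ i ∈ S)
    (hG : Good C (LS f k)) [hS : (MG ι f S).Normal] [hTn : (MG ι f T).Normal]
    (hQ : C (Γ ⧸ MG ι f T)) : C (Γ ⧸ MG ι f S) := by
  let e : A ≃* ι.range := MonoidHom.ofInjective h.inj
  have hle : MG ι f T ≤ ι.range := by
    rintro _ ⟨a, _, rfl⟩
    exact ⟨a, rfl⟩
  let r : MG ι f T →* A := e.symm.toMonoidHom.comp (Subgroup.inclusion hle)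
  have hr : ∀ b, ι (r b) = b := by
    intro b
    have h1 : e (r b) = Subgroup.inclusion hle b := e.apply_symm_apply _
    exact congrArg Subtype.val h1
  have hrm : ∀ b, r b ∈ MS f T := by
    intro b
    obtain ⟨a, ha, hab⟩ := b.2
    have h1 : r b = a := h.inj ((hr b).trans hab.symm)
    rw [h1]; exact ha
  let ψ : MG ι f T →* LS f k :=
    ((Pi.evalMonoidHom H k).comp (f.comp r)).codRestrict (LS f k) fun b =>
      (hrm b).1 k ((hT k).2 (Or.inl rfl))
  have hψ : ∀ b, ((ψ b : LS f k) : H k) = f (r b) k := fun _ => rfl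
  refine step_good hC (MG ι f S) (MG ι f T) ?_ hG ψ ?_ ?_ hQ
  · rintro _ ⟨a, ⟨ha, ha'⟩, rfl⟩
    refine ⟨a, ⟨fun i hi => ?_, fun i hi => ha' i fun hi' => hi ((hT i).2 (Or.inr hi'))⟩, rfl⟩
    by_cases hiS : i ∈ S
    · exact ha i hiS
    · rw [ha' i hiS]; exact one_mem _
  · rintro ⟨y, a, hay, ha⟩
    have ham : a ∈ MS f T := by
      refine ⟨fun i hi => ?_, fun i hi => ha i fun hi' => hi ((hT i).2 (Or.inl hi'))⟩
      by_cases hik : i = k
      · subst hik
        exact ⟨a, rfl, ha⟩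
      · rw [ha i hik]; exact one_mem _
    refine ⟨⟨ι a, a, ham, rfl⟩, ?_⟩
    apply Subtype.ext
    rw [hψ]
    have h1 : r ⟨ι a, a, ham, rfl⟩ = a := h.inj (hr _)
    rw [h1]; exact hay
  · intro b
    constructor
    · intro h1
      have h2 : f (r b) k = 1 := congrArg Subtype.val h1
      refine ⟨r b, ⟨fun i hi => (hrm b).1 i ((hT i).2 (Or.inr hi)), fun i hi => ?_⟩, hr b⟩
      by_cases hik : i = k
      · subst hik; exact h2
      · refine (hrm b).2 i fun hi' => ?_
        rcases (hT i).1 hi' with h3 | h3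
        · exact hik h3
        · exact hi h3
    · rintro ⟨a, ⟨_, ha⟩, hab⟩
      apply Subtype.ext
      rw [hψ]
      have h1 : r b = a := h.inj ((hr b).trans hab.symm)
      rw [h1]; exact ha k hkS

theorem D_ucs (m : ℕ) : ∀ j, j ≤ m → D (Subgroup.upperCentralSeries A m) j ≤
    Subgroup.upperCentralSeries A (m - j) := by
  intro j
  induction j with
  | zero => intro _; exact le_rfl
  | succ j ih =>
    intro hj
    have h1 := ih (by omega)
    have h2 : m - j = (m - (j + 1)) + 1 := by omega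
    rw [h2] at h1
    exact (Subgroup.commutator_mono h1 le_top).trans
      (Subgroup.commutator_upperCentralSeries_top_le A (m - (j + 1)))

/-- all coordinates -/
theorem chain [Finite I] (hC : Cl C) {ι : A →* Γ} (h : Emb ι) {f : A →* (∀ i, H i)}
    {m : ℕ} (hker : ∀ a, f a = 1 → a ∈ Subgroup.upperCentralSeries A m) (hG : ∀ i, Good C (LS f i))
    (hp : ∀ g i a, f a i = 1 → f (cj h g a) i = 1) [(MG ι f Set.univ).Normal]
    (hQ : C (Γ ⧸ MG ι f Set.univ)) : C Γ := by
  classical
  cases nonempty_fintype I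
  have hN : ∀ S : Set I, (MG ι f S).Normal := MG_normal h hp
  have h1 : ∀ S : Finset I, C (Γ ⧸ MG ι f (S : Set I)) →
      C (Γ ⧸ MG ι f ((∅ : Finset I) : Set I)) := by
    intro S
    induction S using Finset.induction_on with
    | empty => exact id
    | insert k S hkS ih =>
      intro h2
      refine ih (chain_step hC h (S : Set I) ((insert k S : Finset I) : Set I) k
        (by simpa using hkS) (fun i => by simp) (hG k) h2)
  have h2 : C (Γ ⧸ MG ι f ((Finset.univ : Finset I) : Set I)) := by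
    refine quot_embed hC (QuotientGroup.mk' (MG ι f Set.univ)) _ ?_ hQ
    intro g
    rw [Finset.coe_univ]
    exact QuotientGroup.eq_one_iff _
  refine sol_ker hC (MG ι f ((∅ : Finset I) : Set I)) m ?_ (h1 _ h2)
  have h3 : MS f ((∅ : Finset I) : Set I) ≤ Subgroup.upperCentralSeries A m := by
    rintro a ⟨_, ha⟩
    exact hker a (funext fun i => ha i (by simp))
  have h4 : D (MS f ((∅ : Finset I) : Set I)) m = ⊥ := by
    have h5 := (D_mono h3 m).trans (D_ucs m m le_rfl)
    rw [Nat.sub_self, Subgroup.upperCentralSeries_zero] at h5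
    exact eq_bot_iff.2 h5
  show D ((MS f ((∅ : Finset I) : Set I)).map ι) m = ⊥
  rw [D_map, h4, Subgroup.map_bot]

/-- the elements whose conjugation preserves all the coordinates -/
def G0 {ι : A →* Γ} (h : Emb ι) (f : A →* (∀ i, H i)) : Subgroup Γ where
  carrier := {g | ∀ i a, f a i = 1 ↔ f (cj h g a) i = 1}
  mul_mem' := by
    intro x y hx hy i a
    have h1 : cj h (x * y) a = cj h x (cj h y a) := by
      apply cj_eq
      rw [cj_spec, cj_spec]; group
    rw [h1, ← hx, ← hy]
  one_mem' := by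
    intro i a
    have h1 : cj h 1 a = a := by
      apply cj_eq
      group
    rw [h1]
  inv_mem' := by
    intro x hx i a
    have h1 : a = cj h x (cj h x⁻¹ a) := by
      symm
      apply cj_eq
      rw [cj_spec]; group
    conv_lhs => rw [h1]
    exact (hx i _).symm

/-- **extensions by subdirect products, first part** -/
theorem main1 [Finite I] (hC : Cl C) {ι : A →* Γ} (h : Emb ι) {f : A →* (∀ i, H i)} {m : ℕ} (hf : Sub f m)
    (hG : ∀ i, Good C (LS f i)) [(MG ι f Set.univ).Normal] (hQ : C (Γ ⧸ MG ι f Set.univ)) : C Γ := by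
  classical
  choose σ hσ using fun g => perm hf (cj h g)
  -- `G0` has finite index
  have hfi : (G0 h f).FiniteIndex := by
    have hq : Finite (Γ ⧸ G0 h f) := by
      refine Finite.of_injective (fun q : Γ ⧸ G0 h f => σ q.out) ?_
      intro q q' hqq
      have h2 : (q.out)⁻¹ * q'.out ∈ G0 h f := by
        intro i a
        have h3 : cj h q'.out a = cj h q.out (cj h ((q.out)⁻¹ * q'.out) a) := by
          apply cj_eq
          rw [cj_spec, cj_spec]; group
        have h4 := hσ q'.out i a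
        rw [h3, ← show σ q.out = σ q'.out from hqq, hσ q.out i] at h4
        exact h4.symm
      have h3 := QuotientGroup.eq.2 h2
      rwa [QuotientGroup.out_eq', QuotientGroup.out_eq'] at h3
    exact Subgroup.finiteIndex_of_finite_quotient
  refine hC.fin Γ (G0 h f) hfi ?_
  have hA : ∀ a, ι a ∈ G0 h f := by
    intro a i x
    have h1 : cj h (ι a) x = a * x * a⁻¹ := by
      apply cj_eq
      rw [map_mul, map_mul, map_inv]
    rw [h1, map_mul, map_mul, map_inv, Pi.mul_apply, Pi.mul_apply, Pi.inv_apply]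
    constructor
    · intro h2; rw [h2]; group
    · intro h2
      have h3 : f x i = (f a i)⁻¹ * (f a i * f x i * (f a i)⁻¹) * f a i := by group
      rw [h3, h2]; group
  let ι0 : A →* G0 h f := ι.codRestrict (G0 h f) hA
  have hι0 : ∀ a, ((ι0 a : G0 h f) : Γ) = ι a := fun _ => rfl
  have h0 : Emb ι0 := by
    refine ⟨fun a b hab => h.inj (congrArg Subtype.val hab), fun g a => ⟨cj h (g : Γ) a, ?_⟩⟩
    apply Subtype.ext
    rw [hι0, cj_spec]; rfl
  have hcj : ∀ (g : G0 h f) (a : A), cj h0 g a = cj h (g : Γ) a := by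
    intro g a
    apply cj_eq
    apply Subtype.ext
    rw [hι0, cj_spec]; rfl
  have hp : ∀ (g : G0 h f) (i : I) (a : A), f a i = 1 → f (cj h0 g a) i = 1 := by
    intro g i a ha
    rw [hcj]
    exact (g.2 i a).1 ha
  have hN0 : (MG ι0 f Set.univ).Normal := MG_normal h0 hp _
  refine chain hC h0 hf.ker hG hp ?_
  refine quot_embed hC ((QuotientGroup.mk' (MG ι f Set.univ)).comp (G0 h f).subtype) _ ?_ hQ
  intro g
  have h1 : ((QuotientGroup.mk' (MG ι f Set.univ)).comp (G0 h f).subtype) g = 1 ↔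
      (g : Γ) ∈ MG ι f Set.univ := QuotientGroup.eq_one_iff _
  rw [h1]
  constructor
  · rintro ⟨a, ha, hag⟩
    exact ⟨a, ha, Subtype.ext hag⟩
  · rintro ⟨a, ha, hag⟩
    exact ⟨a, ha, congrArg Subtype.val hag⟩

theorem D_derived (S : Subgroup A) (k : ℕ) : (derivedSeries S k).map S.subtype = D S k := by
  induction k with
  | zero =>
    rw [derivedSeries_zero, ← MonoidHom.range_eq_map, Subgroup.range_subtype]; rfl
  | succ k ih => rw [derivedSeries_succ, Subgroup.map_commutator, ih]; rfl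

/-- **extensions by subdirect products, second part** -/
theorem main2 (hC : Cl C) {ι : A →* Γ} {f : A →* (∀ i, H i)}
    [hM : (MG ι f Set.univ).Normal] (B : Subgroup Γ) (hB : B = ι.range) [hBn : B.Normal]
    (S : Subgroup A) (hS : S.index ≠ 0) (k : ℕ)
    (hk : ∀ s ∈ derivedSeries S k, ∀ i, f s i ∈ LS f i)
    (hQ : C (Γ ⧸ B)) : C (Γ ⧸ MG ι f Set.univ) := by
  subst hB
  let M : Subgroup Γ := MG ι f Set.univ
  have hle : M ≤ ι.range := by
    rintro _ ⟨a, _, rfl⟩
    exact ⟨a, rfl⟩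
  let V : Subgroup (Γ ⧸ M) := ι.range.map (QuotientGroup.mk' M)
  have hV : V.Normal := Subgroup.Normal.map hBn _ (QuotientGroup.mk'_surjective _)
  let θ : A →* V := ((QuotientGroup.mk' M).comp ι).codRestrict V fun a => ⟨ι a, ⟨a, rfl⟩, rfl⟩
  have hθ : Function.Surjective θ := by
    rintro ⟨_, _, ⟨a, rfl⟩, rfl⟩
    exact ⟨a, rfl⟩
  let N₀ : Subgroup A := S.normalCore
  have hN₀ : N₀.Normal := inferInstance
  have hN₀i : N₀.index ≠ 0 := by
    have h1 : S.FiniteIndex := ⟨hS⟩
    exact Subgroup.FiniteIndex.index_ne_zero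
  let R₀ : Subgroup V := N₀.map θ
  have hR₀ : R₀.Normal := Subgroup.Normal.map hN₀ _ hθ
  have hR₀i : R₀.index ≠ 0 := by
    intro h0
    have h1 := Subgroup.index_map_dvd (f := θ) N₀ hθ
    have h2 : (N₀.map θ).index = 0 := h0
    rw [h2, zero_dvd_iff] at h1
    exact hN₀i h1
  refine virt_ker hC V R₀ hR₀i k ?_ (quot_quot hC M ι.range hle hQ hV)
  rw [D_map, Subgroup.map_eq_bot_iff]
  intro s hs
  have h1 : s ∈ D S k := D_mono (Subgroup.normalCore_le S) k hs
  rw [← D_derived] at h1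
  obtain ⟨s', hs', rfl⟩ := h1
  rw [MonoidHom.mem_ker]
  apply Subtype.ext
  refine (QuotientGroup.eq_one_iff _).2 ⟨_, ⟨fun i _ => hk s' hs' i, fun i hi => ?_⟩, rfl⟩
  exact absurd (Set.mem_univ i) hi

/-- **extensions by subdirect products, second part, good quotient** -/
theorem main2' (hC : Cl C) {ι : A →* Γ} (h : Emb ι) {f : A →* (∀ i, H i)}
    [hM : (MG ι f Set.univ).Normal] (B : Subgroup Γ) (hB : B = ι.range) [hBn : B.Normal]
    {L : Type} [Group L] (hL : Good C L) (ψ : A →* L) (hψ : Function.Surjective ψ)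
    (hk : ∀ a, ψ a = 1 ↔ ∀ i, f a i ∈ LS f i)
    (hQ : C (Γ ⧸ B)) : C (Γ ⧸ MG ι f Set.univ) := by
  subst hB
  have hle : MG ι f Set.univ ≤ ι.range := by
    rintro _ ⟨a, _, rfl⟩
    exact ⟨a, rfl⟩
  let e : A ≃* ι.range := MonoidHom.ofInjective h.inj
  have he : ∀ b, ι (e.symm b) = b := by
    intro b
    have h1 : e (e.symm b) = b := e.apply_symm_apply _
    exact congrArg Subtype.val h1
  refine step_good hC (MG ι f Set.univ) ι.range hle hL (ψ.comp e.symm.toMonoidHom)
    (hψ.comp e.symm.surjective) ?_ hQ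
  intro b
  have h1 : (ψ.comp e.symm.toMonoidHom) b = ψ (e.symm b) := rfl
  rw [h1, hk]
  constructor
  · intro h2
    exact ⟨e.symm b, ⟨fun i _ => h2 i, fun i hi => absurd (Set.mem_univ i) hi⟩, he b⟩
  · rintro ⟨a, ha, hab⟩
    have h2 : e.symm b = a := h.inj ((he b).trans hab.symm)
    rw [h2]
    exact fun i => ha.1 i (Set.mem_univ i)

end Pool.Agent.H20.SK
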