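import Mathlib
import Pool.Agent.H20.SK.Chain

/-!
Extensions whose kernel is virtually a subdirect product. The lemmas `mem_cs`, `mem_norm`, `finite_hom`,
`finite_sub` and `norm_fi` are copied from the library module `X201.RA.Virt`.
-/

set_option autoImplicit false

namespace Pool.Agent.H20.SK

open scoped Pointwise commutatorElement

variable {C : ∀ (G : Type) [Group G], Prop}

/-- membership in a conjugate subgroup -/
theorem mem_cs {G : Type} [Group G] (g x : G) (H : Subgroup G) :
    x ∈ MulAut.conj g • H ↔ g⁻¹ * x * g ∈ H := by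
  rw [Subgroup.mem_pointwise_smul_iff_inv_smul_mem, ← map_inv, MulAut.smul_def, MulAut.conj_apply,
    inv_inv]

theorem mem_norm {G : Type} [Group G] (g : G) (H : Subgroup G) :
    g ∈ Subgroup.normalizer (H : Set G) ↔ MulAut.conj g • H = H := by
  rw [Subgroup.mem_normalizer_iff]
  constructor
  · intro h
    ext x
    rw [mem_cs, h]
    have h1 : g * (g⁻¹ * x * g) * g⁻¹ = x := by group
    rw [h1]
  · intro h x
    conv_rhs => rw [← h, mem_cs]
    have h1 : g⁻¹ * (g * x * g⁻¹) * g = x := by group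
    rw [h1]

/-- finitely many homomorphisms to a finite group -/
theorem finite_hom {N H : Type} [Group N] [Group H] [Finite H] (hN : Group.FG N) :
    Finite (N →* H) := by
  obtain ⟨S, hS⟩ := hN.out
  refine Finite.of_injective (fun (f : N →* H) (s : S) => f s) ?_
  intro f g hfg
  apply MonoidHom.eq_of_eqOn_dense hS
  intro s hs
  exact congrFun hfg ⟨s, hs⟩

/-- finitely many subgroups of a given finite index -/
theorem finite_sub {N : Type} [Group N] (hN : Group.FG N) (d : ℕ) (hd : d ≠ 0) :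
    {A : Subgroup N | A.index = d}.Finite := by
  classical
  have h0 : Finite (N →* Equiv.Perm (Fin d)) := finite_hom hN
  refine (Set.finite_range (fun p : (N →* Equiv.Perm (Fin d)) × Fin d =>
    (MulAction.stabilizer (Equiv.Perm (Fin d)) p.2).comap p.1)).subset ?_
  intro A hA
  have hA' : Nat.card (N ⧸ A) = d := hA
  have hfin : Finite (N ⧸ A) := Nat.finite_of_card_ne_zero (by rw [hA']; exact hd)
  let e : N ⧸ A ≃ Fin d := Finite.equivFinOfCardEq hA'
  let ρ : N →* Equiv.Perm (Fin d) := (e.permCongrHom).toMonoidHom.comp (MulAction.toPermHom N (N ⧸ A))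
  refine ⟨(ρ, e ((1 : N) : N ⧸ A)), ?_⟩
  ext n
  have h1 : ρ n (e ((1 : N) : N ⧸ A)) = e ((n : N) : N ⧸ A) := by
    show e (n • (e.symm (e ((1 : N) : N ⧸ A)))) = _
    rw [e.symm_apply_apply]
    show e ((n * 1 : N) : N ⧸ A) = _
    rw [mul_one]
  show ρ n (e ((1 : N) : N ⧸ A)) = e ((1 : N) : N ⧸ A) ↔ n ∈ A
  rw [h1, e.apply_eq_iff_eq, eq_comm, QuotientGroup.eq, inv_one, one_mul]

/-- the normalizer of a subgroup of finite index of a finitely generated normal subgroup has finite
index -/
theorem norm_fi {G : Type} [Group G] (A N : Subgroup G) [hN : N.Normal] (hAN : A ≤ N)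
    (hfi : A.relIndex N ≠ 0) (hfg : Group.FG N) : (Subgroup.normalizer (A : Set G)).FiniteIndex := by
  classical
  have hfin := finite_sub hfg (A.relIndex N) hfi
  have hcN : ∀ g : G, MulAut.conj g • N = N := fun g => by
    ext x
    rw [mem_cs]
    constructor
    · intro h1
      have h2 := hN.conj_mem _ h1 g
      have h3 : g * (g⁻¹ * x * g) * g⁻¹ = x := by group
      rwa [h3] at h2
    · intro h1
      have h2 := hN.conj_mem _ h1 g⁻¹
      rwa [inv_inv] at h2
  have hle : ∀ g : G, MulAut.conj g • A ≤ N := by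
    intro g
    rw [← hcN g]
    exact Subgroup.pointwise_smul_le_pointwise_smul_iff.2 hAN
  have hmem : ∀ g : G, (MulAut.conj g • A).subgroupOf N ∈ {B : Subgroup N | B.index = A.relIndex N} := by
    intro g
    show (MulAut.conj g • A).relIndex N = A.relIndex N
    conv_lhs => rw [← hcN g]
    exact Subgroup.relIndex_pointwise_smul _ _ _
  let f : G → {B : Subgroup N | B.index = A.relIndex N} := fun g => ⟨_, hmem g⟩
  have hf : ∀ g g' : G, f g = f g' → MulAut.conj g • A = MulAut.conj g' • A := by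
    intro g g' hgg
    have h1 : (MulAut.conj g • A).subgroupOf N = (MulAut.conj g' • A).subgroupOf N :=
      congrArg Subtype.val hgg
    rw [Subgroup.subgroupOf_inj, inf_eq_left.2 (hle g), inf_eq_left.2 (hle g')] at h1
    exact h1
  have hfin' : Finite {B : Subgroup N | B.index = A.relIndex N} := hfin
  have hq : Finite (G ⧸ Subgroup.normalizer (A : Set G)) := by
    refine Finite.of_injective (fun q : G ⧸ Subgroup.normalizer (A : Set G) => f q.out) ?_
    intro q q' hqq
    have h1 := hf _ _ hqq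
    have h2 : (q.out)⁻¹ * q'.out ∈ Subgroup.normalizer (A : Set G) := by
      rw [mem_norm, map_mul, mul_smul, ← h1, ← mul_smul, ← map_mul, inv_mul_cancel, map_one, one_smul]
    have h3 := QuotientGroup.eq.2 h2
    rwa [QuotientGroup.out_eq', QuotientGroup.out_eq'] at h3
  exact Subgroup.finiteIndex_of_finite_quotient

variable {I : Type} {H : I → Type} [∀ i, Group (H i)]

/-- extensions whose kernel is virtually a subdirect product, with an abstract step -/
theorem main3g [Finite I] (hC : Cl C) {G : Type} [Group G] (N A : Subgroup G) [hN : N.Normal]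
    (hAN : A ≤ N) (hfi : A.relIndex N ≠ 0) (hfg : A.Normal ∨ Group.FG N) {f : A →* (∀ i, H i)}
    {m : ℕ} (hf : Sub f m) (hG : ∀ i, Good C (LS f i))
    (hstep : ∀ (Γ : Type) [Group Γ] (ι : A →* Γ), Emb ι → ∀ (B : Subgroup Γ), B = ι.range →
      ∀ [B.Normal] [(MG ι f Set.univ).Normal], C (Γ ⧸ B) → C (Γ ⧸ MG ι f Set.univ))
    (hQ : C (G ⧸ N)) : C G := by
  let G1 : Subgroup G := Subgroup.normalizer (A : Set G)
  have hG1 : G1.FiniteIndex := by
    rcases hfg with h | h
    · have h1 : G1 = ⊤ := Subgroup.normalizer_eq_top_iff.2 h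
      rw [h1]; infer_instance
    · exact norm_fi A N hAN hfi h
  refine hC.fin G G1 hG1 ?_
  have hA1 : A ≤ G1 := Subgroup.le_normalizer
  let A1 : Subgroup G1 := A.subgroupOf G1
  have hA1n : A1.Normal := Subgroup.normal_in_normalizer
  let ι : A →* G1 := Subgroup.inclusion hA1
  have hι : ∀ a, ((ι a : G1) : G) = a := fun _ => rfl
  have hr : A1 = ι.range := by
    ext x
    constructor
    · intro hx
      exact ⟨⟨(x : G), hx⟩, rfl⟩
    · rintro ⟨y, rfl⟩
      exact y.2
  have h : Emb ι := by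
    refine ⟨Subgroup.inclusion_injective hA1, fun g a => ?_⟩
    have h1 : g * ι a * g⁻¹ ∈ A1 := hA1n.conj_mem _ (a.2 : ι a ∈ A1) g
    exact ⟨⟨_, h1⟩, rfl⟩
  let N1 : Subgroup G1 := N.subgroupOf G1
  have hN1 : N1.Normal := inferInstance
  have hle : A1 ≤ N1 := fun x hx => hAN hx
  have hrel : A1.relIndex N1 ≠ 0 := by
    have h1 : A1.relIndex N1 = A.relIndex (N ⊓ G1) := by
      show (A.comap G1.subtype).relIndex (N.subgroupOf G1) = _
      rw [Subgroup.relIndex_comap, Subgroup.subgroupOf_map_subtype]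
    rw [h1]
    intro h0
    exact hfi (Subgroup.relIndex_eq_zero_of_le_right inf_le_left h0)
  have h1 : C (G1 ⧸ N1) := by
    refine quot_embed hC ((QuotientGroup.mk' N).comp G1.subtype) N1 ?_ hQ
    intro g
    exact QuotientGroup.eq_one_iff _
  have h2 : C (G1 ⧸ A1) := step_fin hC A1 N1 hle hrel h1
  have hM : (MG ι f Set.univ).Normal := MG_univ_normal h hf
  exact main1 hC h hf hG (hstep G1 ι h A1 hr h2)

/-- **extensions whose kernel is virtually a subdirect product** -/
theorem main3 [Finite I] (hC : Cl C) {G : Type} [Group G] (N A : Subgroup G) [hN : N.Normal]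
    (hAN : A ≤ N) (hfi : A.relIndex N ≠ 0) (hfg : A.Normal ∨ Group.FG N) {f : A →* (∀ i, H i)}
    {m : ℕ} (hf : Sub f m) (hG : ∀ i, Good C (LS f i)) (S : Subgroup A) (hS : S.index ≠ 0) (k : ℕ)
    (hk : ∀ s ∈ derivedSeries S k, ∀ i, f s i ∈ LS f i) (hQ : C (G ⧸ N)) : C G :=
  main3g hC N A hAN hfi hfg hf hG (fun _ _ _ _ B hB _ _ h => main2 hC B hB S hS k hk h) hQ

/-- extensions whose kernel is virtually a subdirect product, good quotient -/
theorem main3' [Finite I] (hC : Cl C) {G : Type} [Group G] (N A : Subgroup G) [hN : N.Normal]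
    (hAN : A ≤ N) (hfi : A.relIndex N ≠ 0) (hfg : A.Normal ∨ Group.FG N) {f : A →* (∀ i, H i)}
    {m : ℕ} (hf : Sub f m) (hG : ∀ i, Good C (LS f i)) {L : Type} [Group L] (hL : Good C L) (ψ : A →* L)
    (hψ : Function.Surjective ψ) (hk : ∀ a, ψ a = 1 ↔ ∀ i, f a i ∈ LS f i) (hQ : C (G ⧸ N)) : C G :=
  main3g hC N A hAN hfi hfg hf hG (fun _ _ _ h0 B hB _ _ h => main2' hC h0 B hB hL ψ hψ hk h) hQ

/-- commutative transitive groups in which `a` and `c a c⁻¹` commute only if `a` and `c` commute -/
def CSA (H : Type) [Group H] : Prop :=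
  CT H ∧ ∀ a c : H, a ≠ 1 → a * (c * a * c⁻¹) = c * a * c⁻¹ * a → a * c = c * a

variable {A : Type} [Group A]

/-- the coordinates in `J` -/
def fJ (f : A →* (∀ i, H i)) (J : Finset I) : A →* (∀ i : {i // i ∈ J}, H i.1) :=
  MonoidHom.pi fun i => (Pi.evalMonoidHom H i.1).comp f

theorem LS_J (f : A →* (∀ i, H i)) (J : Finset I) (i : {i // i ∈ J}) {x : H i.1} (hx : x ∈ LS f i.1) :
    x ∈ LS (fJ f J) i := by
  obtain ⟨a, ha, ha'⟩ := hx
  exact ⟨a, ha, fun j hj => ha' j.1 fun h => hj (Subtype.ext h)⟩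

/-- after forgetting some coordinates the kernel is still in the upper central series and the
intersections with the factors are not commutative -/
theorem exists_J [Finite I] (f : A →* (∀ i, H i)) (m₀ : ℕ)
    (hker : ∀ a, f a = 1 → a ∈ Subgroup.upperCentralSeries A m₀)
    (hH : ∀ i, CSA (H i)) : ∃ (J : Finset I) (m : ℕ), Sub (fJ f J) m := by
  classical
  cases nonempty_fintype I
  let P : Finset I → Prop := fun J => ∃ m, ∀ a, (∀ i ∈ J, f a i = 1) →
    a ∈ Subgroup.upperCentralSeries A m
  have hex : ∃ c, ∃ J : Finset I, J.card = c ∧ P J :=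
    ⟨_, Finset.univ, rfl, m₀, fun a ha => hker a (funext fun i => ha i (Finset.mem_univ i))⟩
  obtain ⟨J, hJc, m, hJ⟩ := Nat.find_spec hex
  refine ⟨J, m, fun i => (hH i.1).1, fun a ha => hJ a fun i hi => congrFun ha ⟨i, hi⟩, ?_⟩
  rintro ⟨i, hi⟩
  have hn : ¬ P (J.erase i) := by
    intro h
    have h1 := Nat.find_min' hex ⟨J.erase i, rfl, h⟩
    have h2 := Finset.card_erase_lt_of_mem hi
    rw [hJc] at h2
    exact absurd h1 (not_le.2 h2)
  have hn' : ∃ a, (∀ j ∈ J.erase i, f a j = 1) ∧ a ∉ Subgroup.upperCentralSeries A (m + 1) := by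
    by_contra hcon
    apply hn
    refine ⟨m + 1, fun a ha => ?_⟩
    by_contra hab
    exact hcon ⟨a, ha, hab⟩
  obtain ⟨a, ha, hab⟩ := hn'
  -- the `i`-th coordinates do not commute
  obtain ⟨b, h1⟩ : ∃ b, f a i * f b i ≠ f b i * f a i := by
    by_contra hcon
    apply hab
    rw [Subgroup.mem_upperCentralSeries_succ_iff]
    intro b
    apply hJ
    intro j hj
    rw [commutatorElement_def, map_mul, map_mul, map_mul, map_inv, map_inv, Pi.mul_apply,
      Pi.mul_apply, Pi.mul_apply, Pi.inv_apply, Pi.inv_apply]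
    by_cases hji : j = i
    · subst hji
      have h0 : f a j * f b j = f b j * f a j := by
        by_contra h0
        exact hcon ⟨b, h0⟩
      rw [h0]; group
    · rw [ha j (Finset.mem_erase.2 ⟨hji, hj⟩)]; group
  refine ⟨a, b * a * b⁻¹, ?_, ?_, ?_⟩
  · rintro ⟨j, hj⟩ hji
    exact ha j (Finset.mem_erase.2 ⟨fun h => hji (Subtype.ext h), hj⟩)
  · rintro ⟨j, hj⟩ hji
    show f (b * a * b⁻¹) j = 1
    rw [map_mul, map_mul, map_inv, Pi.mul_apply, Pi.mul_apply, Pi.inv_apply,
      ha j (Finset.mem_erase.2 ⟨fun h => hji (Subtype.ext h), hj⟩)]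
    group
  · intro h2
    have h3 : f (a * (b * a * b⁻¹)) i = f ((b * a * b⁻¹) * a) i := h2
    rw [map_mul f a (b * a * b⁻¹), map_mul f (b * a * b⁻¹) a, map_mul f (b * a) b⁻¹, map_mul f b a,
      map_inv] at h3
    simp only [Pi.mul_apply, Pi.inv_apply] at h3
    refine h1 ((hH i).2 _ _ ?_ h3)
    intro h4
    apply h1
    rw [h4, one_mul, mul_one]

/-- subgroups for which the products of two kernels of coordinates have finite index -/
theorem vspK [Finite I] (f : A →* (∀ i, H i))
    (hK : ∀ i j, i ≠ j →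
      (((Pi.evalMonoidHom H i).comp f).ker ⊔ ((Pi.evalMonoidHom H j).comp f).ker).FiniteIndex) :
    ∃ (S : Subgroup A), S.index ≠ 0 ∧ ∃ k, ∀ s ∈ derivedSeries S k, ∀ i, f s i ∈ LS f i := by
  classical
  cases nonempty_fintype I
  let K : I → Subgroup A := fun i => ((Pi.evalMonoidHom H i).comp f).ker
  let S : Subgroup A := ⨅ q : {q : I × I // q.1 ≠ q.2}, K q.1.1 ⊔ K q.1.2
  have hS : S.FiniteIndex := Subgroup.finiteIndex_iInf fun q => hK _ _ q.2
  have hS' : ∀ i j, i ≠ j → S ≤ K i ⊔ K j := fun i j hij =>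
    iInf_le (fun q : {q : I × I // q.1 ≠ q.2} => K q.1.1 ⊔ K q.1.2) ⟨(i, j), hij⟩
  have key : ∀ (k : ℕ) (i : I) (T : Finset I), T.card ≤ k + 1 → i ∉ T → ∀ s ∈ D S k,
      ∃ y, f y i = f s i ∧ ∀ j ∈ T, f y j = 1 := by
    intro k
    induction k with
    | zero =>
      intro i T hT hi s hs
      rcases Nat.lt_or_ge T.card 1 with h0 | h0
      · have h1 : T = ∅ := Finset.card_eq_zero.1 (by omega)
        exact ⟨s, rfl, fun j hj => by rw [h1] at hj; exact absurd hj (Finset.notMem_empty j)⟩
      · obtain ⟨j, hj⟩ := Finset.card_eq_one.1 (le_antisymm hT h0)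
        subst hj
        have hij : i ≠ j := fun h => hi (by rw [h]; exact Finset.mem_singleton_self j)
        have h1 : s ∈ K i ⊔ K j := hS' i j hij hs
        obtain ⟨x, hx, y, hy, hxy⟩ := Subgroup.mem_sup_of_normal_right.1 h1
        refine ⟨y, ?_, fun l hl => ?_⟩
        · have hx' : f x i = 1 := hx
          rw [← hxy, map_mul, Pi.mul_apply, hx', one_mul]
        · rw [Finset.mem_singleton.1 hl]; exact hy
    | succ k ih =>
      intro i T hT hi s hs
      rcases T.eq_empty_or_nonempty with h0 | ⟨j, hj⟩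
      · exact ⟨s, rfl, fun j hj => by rw [h0] at hj; exact absurd hj (Finset.notMem_empty j)⟩
      · let Q : Subgroup A :=
          { carrier := {s | ∃ y, f y i = f s i ∧ ∀ j ∈ T, f y j = 1}
            mul_mem' := by
              rintro a b ⟨y, hy, hy'⟩ ⟨z, hz, hz'⟩
              refine ⟨y * z, ?_, fun j hj => ?_⟩
              · rw [map_mul, map_mul, Pi.mul_apply, Pi.mul_apply, hy, hz]
              · rw [map_mul, Pi.mul_apply, hy' j hj, hz' j hj, one_mul]
            one_mem' := ⟨1, rfl, fun j _ => by rw [map_one, Pi.one_apply]⟩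
            inv_mem' := by
              rintro a ⟨y, hy, hy'⟩
              refine ⟨y⁻¹, ?_, fun j hj => ?_⟩
              · rw [map_inv, map_inv, Pi.inv_apply, Pi.inv_apply, hy]
              · rw [map_inv, Pi.inv_apply, hy' j hj, inv_one] }
        have h1 : ⁅D S k, D S k⁆ ≤ Q := by
          rw [Subgroup.commutator_le]
          intro u hu v hv
          obtain ⟨y, hy, hy'⟩ := ih i (T.erase j)
            (by have := Finset.card_erase_lt_of_mem hj; omega)
            (fun h => hi (Finset.mem_of_mem_erase h)) u hu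
          obtain ⟨z, hz, hz'⟩ := ih i {j} (by rw [Finset.card_singleton]; omega)
            (fun h => hi (by rw [Finset.mem_singleton.1 h]; exact hj)) v hv
          refine ⟨⁅y, z⁆, ?_, fun l hl => ?_⟩
          · rw [commutatorElement_def, commutatorElement_def, map_mul, map_mul, map_mul, map_mul,
              map_mul, map_mul, map_inv, map_inv, map_inv, map_inv]
            simp only [Pi.mul_apply, Pi.inv_apply, hy, hz]
          · rw [commutatorElement_def, map_mul, map_mul, map_mul, map_inv, map_inv]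
            simp only [Pi.mul_apply, Pi.inv_apply]
            by_cases hlj : l = j
            · rw [hz' l (Finset.mem_singleton.2 hlj)]; group
            · rw [hy' l (Finset.mem_erase.2 ⟨hlj, hl⟩)]; group
        exact h1 hs
  refine ⟨S, Subgroup.FiniteIndex.index_ne_zero, Fintype.card I, fun s hs i => ?_⟩
  have h1 : (s : A) ∈ D S (Fintype.card I) := by
    rw [← D_derived]
    exact ⟨s, hs, rfl⟩
  obtain ⟨y, hy, hy'⟩ := key _ i (Finset.univ.erase i)
    (by have := Finset.card_le_univ (Finset.univ.erase i); omega)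
    (Finset.notMem_erase i _) _ h1
  exact ⟨y, hy, fun j hj => hy' j (Finset.mem_erase.2 ⟨hj, Finset.mem_univ j⟩)⟩

/-- subgroups which virtually surject to pairs -/
theorem vsp [Finite I] (f : A →* (∀ i, H i))
    (hp : ∀ i j, i ≠ j →
      (((Pi.evalMonoidHom H i).comp f).prod ((Pi.evalMonoidHom H j).comp f)).range.FiniteIndex) :
    ∃ (S : Subgroup A), S.index ≠ 0 ∧ ∃ k, ∀ s ∈ derivedSeries S k, ∀ i, f s i ∈ LS f i := by
  classical
  refine vspK f ?_
  intro i j hij
  let K : I → Subgroup A := fun i => ((Pi.evalMonoidHom H i).comp f).ker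
  let p : A →* H i × H j := ((Pi.evalMonoidHom H i).comp f).prod ((Pi.evalMonoidHom H j).comp f)
  have hfin : p.range.FiniteIndex := hp i j hij
  have hq : Finite (A ⧸ (K i ⊔ K j)) := by
    refine Finite.of_injective (fun q : A ⧸ (K i ⊔ K j) =>
      (((f q.out i, (1 : H j)) : H i × H j) : (H i × H j) ⧸ p.range)) ?_
    intro q q' hqq
    have h1 := QuotientGroup.eq.1 hqq
    obtain ⟨c, hc⟩ := h1
    have hc1 : f c i = (f q.out i)⁻¹ * f q'.out i := congrArg Prod.fst hc
    have hc2 : f c j = 1 := by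
      have h2 : f c j = (1 : H j)⁻¹ * 1 := congrArg Prod.snd hc
      rwa [inv_one, one_mul] at h2
    have h2 : (q.out)⁻¹ * q'.out ∈ K i ⊔ K j := by
      have h3 : (q.out)⁻¹ * q'.out = ((q.out)⁻¹ * q'.out * c⁻¹) * c := by group
      rw [h3]
      refine Subgroup.mul_mem_sup ?_ hc2
      show f ((q.out)⁻¹ * q'.out * c⁻¹) i = 1
      rw [map_mul, map_mul, map_inv, map_inv, Pi.mul_apply, Pi.mul_apply, Pi.inv_apply,
        Pi.inv_apply, hc1]
      group
    have h3 := QuotientGroup.eq.2 h2
    rwa [QuotientGroup.out_eq', QuotientGroup.out_eq'] at h3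
  exact Subgroup.finiteIndex_of_finite_quotient

end Pool.Agent.H20.SK
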