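import Mathlib

/-!
Centralizers in free groups.
-/

set_option autoImplicit false

namespace Pool.Agent.H20.SK

theorem free_noncomm {X : Type} {x y : X} (hxy : x ≠ y) :
    FreeGroup.of x * FreeGroup.of y ≠ FreeGroup.of y * FreeGroup.of x := by
  classical
  intro h
  let p : Equiv.Perm (Fin 3) := Equiv.swap 0 1
  let q : Equiv.Perm (Fin 3) := Equiv.swap 1 2
  let φ : FreeGroup X →* Equiv.Perm (Fin 3) := FreeGroup.lift fun z => if z = x then p else q
  have h1 := congrArg φ h
  rw [map_mul, map_mul] at h1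
  have h2 : φ (FreeGroup.of x) = p := by
    rw [FreeGroup.lift_apply_of, if_pos rfl]
  have h3 : φ (FreeGroup.of y) = q := by
    rw [FreeGroup.lift_apply_of, if_neg (Ne.symm hxy)]
  rw [h2, h3] at h1
  exact absurd h1 (by decide)

theorem free_cyc {X : Type} [Subsingleton X] : ∃ r : FreeGroup X, ∀ z, ∃ k : ℤ, z = r ^ k := by
  by_cases hX : Nonempty X
  · obtain ⟨x⟩ := hX
    refine ⟨FreeGroup.of x, fun z => ?_⟩
    induction z using FreeGroup.induction_on with
    | C1 => exact ⟨0, (zpow_zero _).symm⟩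
    | of y => exact ⟨1, by rw [zpow_one, Subsingleton.elim x y]⟩
    | inv_of y _ => exact ⟨-1, by rw [zpow_neg, zpow_one, Subsingleton.elim x y]⟩
    | mul a b ha hb =>
      obtain ⟨k, hk⟩ := ha
      obtain ⟨l, hl⟩ := hb
      exact ⟨k + l, by rw [zpow_add, ← hk, ← hl]⟩
  · refine ⟨1, fun z => ⟨0, ?_⟩⟩
    rw [zpow_zero]
    induction z using FreeGroup.induction_on with
    | C1 => rfl
    | of y => exact absurd ⟨y⟩ hX
    | inv_of y _ => exact absurd ⟨y⟩ hX
    | mul a b ha hb => rw [ha, hb, one_mul]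

theorem sub_cyc {F : Type} [Group F] [IsFreeGroup F] (K : Subgroup F)
    (hK : ∀ x ∈ K, ∀ y ∈ K, x * y = y * x) : ∃ r ∈ K, ∀ z ∈ K, ∃ k : ℤ, z = r ^ k := by
  let e : K ≃* FreeGroup (IsFreeGroup.Generators K) := IsFreeGroup.toFreeGroup K
  have hs : Subsingleton (IsFreeGroup.Generators K) := by
    refine ⟨fun x y => ?_⟩
    by_contra hxy
    apply free_noncomm hxy
    apply e.symm.injective
    rw [map_mul, map_mul]
    exact Subtype.ext (hK _ (e.symm _).2 _ (e.symm _).2)
  obtain ⟨r, hr⟩ := free_cyc (X := IsFreeGroup.Generators K)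
  refine ⟨(e.symm r : K), (e.symm r).2, fun z hz => ?_⟩
  obtain ⟨k, hk⟩ := hr (e ⟨z, hz⟩)
  refine ⟨k, ?_⟩
  have h1 : (⟨z, hz⟩ : K) = (e.symm r) ^ k := by
    rw [← map_zpow, ← hk, e.symm_apply_apply]
  have h2 := congrArg Subtype.val h1
  rw [Subgroup.coe_zpow] at h2
  exact h2

theorem free_tf {F : Type} [Group F] [IsFreeGroup F] {x y : F} {k : ℤ} (hk : k ≠ 0)
    (h : x ^ k = y ^ k) : x = y := by
  let e : F ≃* FreeGroup (IsFreeGroup.Generators F) := IsFreeGroup.toFreeGroup F
  apply e.injective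
  have h1 : e x ^ k = e y ^ k := by rw [← map_zpow, ← map_zpow, h]
  exact zpow_left_injective hk h1

theorem free_root {F : Type} [Group F] [IsFreeGroup F] {u v : F} {k : ℤ} (hk : k ≠ 0)
    (h : v * u ^ k = u ^ k * v) : v * u = u * v := by
  have h1 : (v * u * v⁻¹) ^ k = u ^ k := by
    rw [conj_zpow, h, mul_inv_cancel_right]
  have h2 := free_tf hk h1
  calc v * u = v * u * v⁻¹ * v := by group
    _ = u * v := by rw [h2]

theorem pair_cyc {F : Type} [Group F] [IsFreeGroup F] {x y : F} (h : x * y = y * x) :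
    ∃ (u : F) (a b : ℤ), x = u ^ a ∧ y = u ^ b := by
  have hc : ∀ g ∈ ({x, y} : Set F), ∀ g' ∈ ({x, y} : Set F), g * g' = g' * g := by
    rintro g (rfl | rfl) g' (rfl | rfl)
    · rfl
    · exact h
    · exact h.symm
    · rfl
  have h0 : ∀ g ∈ Subgroup.closure ({x, y} : Set F), ∀ g' ∈ Subgroup.closure ({x, y} : Set F),
      g * g' = g' * g := by
    intro g hg g' hg'
    induction hg using Subgroup.closure_induction with
    | mem g hgm =>
      induction hg' using Subgroup.closure_induction with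
      | mem g' hgm' => exact hc g hgm g' hgm'
      | one => rw [mul_one, one_mul]
      | mul a b _ _ ha hb => rw [← mul_assoc, ha, mul_assoc, hb, mul_assoc]
      | inv a _ ha =>
        rw [eq_inv_mul_iff_mul_eq, ← mul_assoc, ← ha, mul_inv_cancel_right]
    | one => rw [mul_one, one_mul]
    | mul a b _ _ ha hb => rw [mul_assoc, hb, ← mul_assoc, ha, mul_assoc]
    | inv a _ ha =>
      rw [inv_mul_eq_iff_eq_mul, ← mul_assoc, ha, mul_inv_cancel_right]
  obtain ⟨u, _, hu⟩ := sub_cyc _ h0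
  obtain ⟨a, ha⟩ := hu x (Subgroup.subset_closure (by simp))
  obtain ⟨b, hb⟩ := hu y (Subgroup.subset_closure (by simp))
  exact ⟨u, a, b, ha, hb⟩

/-- free groups are commutative transitive -/
theorem free_ct {F : Type} [Group F] [IsFreeGroup F] (x y z : F) (hy : y ≠ 1)
    (hxy : x * y = y * x) (hyz : y * z = z * y) : x * z = z * x := by
  obtain ⟨u, a, b, hx, hy1⟩ := pair_cyc hxy
  obtain ⟨v, c, d, hy2, hz⟩ := pair_cyc hyz
  have hb : b ≠ 0 := by
    rintro rfl
    rw [zpow_zero] at hy1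
    exact hy hy1
  have h1 : v * u ^ b = u ^ b * v := by
    rw [← hy1, hy2]
    exact ((Commute.refl v).zpow_right c).eq
  have h2 : Commute u v := (free_root hb h1).symm
  rw [hx, hz]
  exact ((h2.zpow_left a).zpow_right d).eq

/-- maximal abelian subgroups of free groups are malnormal -/
theorem free_csa {F : Type} [Group F] [IsFreeGroup F] (a c : F) (ha : a ≠ 1)
    (h : a * (c * a * c⁻¹) = c * a * c⁻¹ * a) : a * c = c * a := by
  have hb : c * a * c⁻¹ ≠ 1 := by
    intro h0
    apply ha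
    have h1 : a = c⁻¹ * (c * a * c⁻¹) * c := by group
    rw [h1, h0]; group
  -- the centralizer of `a` is cyclic
  obtain ⟨r, hr, hgen⟩ := sub_cyc (Subgroup.centralizer {a}) (by
    intro x hx y hy
    rw [Subgroup.mem_centralizer_singleton_iff] at hx hy
    exact free_ct x a y ha hx hy.symm)
  have hra : r * a = a * r := by
    rwa [Subgroup.mem_centralizer_singleton_iff] at hr
  obtain ⟨m, hm⟩ := hgen a (by rw [Subgroup.mem_centralizer_singleton_iff])
  have hr1 : r ≠ 1 := by
    rintro rfl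
    rw [one_zpow] at hm
    exact ha hm
  -- it is normalized by `c`
  obtain ⟨k, hk⟩ := hgen (c * r * c⁻¹) (by
    rw [Subgroup.mem_centralizer_singleton_iff]
    refine free_ct _ (c * a * c⁻¹) _ hb ?_ h.symm
    calc c * r * c⁻¹ * (c * a * c⁻¹) = c * (r * a) * c⁻¹ := by group
      _ = c * (a * r) * c⁻¹ := by rw [hra]
      _ = c * a * c⁻¹ * (c * r * c⁻¹) := by group)
  obtain ⟨l, hl⟩ := hgen (c⁻¹ * r * c) (by
    rw [Subgroup.mem_centralizer_singleton_iff]
    have h1 : r * (c * a * c⁻¹) = c * a * c⁻¹ * r := free_ct _ a _ ha hra h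
    calc c⁻¹ * r * c * a = c⁻¹ * (r * (c * a * c⁻¹)) * c := by group
      _ = c⁻¹ * (c * a * c⁻¹ * r) * c := by rw [h1]
      _ = a * (c⁻¹ * r * c) := by group)
  have hkl : r ^ (k * l) = r ^ (1 : ℤ) := by
    rw [zpow_mul, ← hk, conj_zpow, ← hl, zpow_one]; group
  have hkl1 : k * l = 1 := by
    by_contra hne
    have h1 : r ^ (k * l - 1) = 1 := by rw [zpow_sub, hkl, mul_inv_cancel]
    have h2 : k * l - 1 ≠ 0 := sub_ne_zero.2 hne
    apply hr1
    refine free_tf h2 ?_
    rw [h1, one_zpow]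
  have hcr : c * r = r * c := by
    rcases Int.eq_one_or_neg_one_of_mul_eq_one hkl1 with rfl | rfl
    · rw [zpow_one] at hk
      calc c * r = c * r * c⁻¹ * c := by group
        _ = r * c := by rw [hk]
    · have h1 : r * c ^ (2 : ℤ) = c ^ (2 : ℤ) * r := by
        have h2 : c * (c * r * c⁻¹) * c⁻¹ = r := by
          rw [hk, zpow_neg, zpow_one]
          have h3 : c * r⁻¹ * c⁻¹ = (c * r * c⁻¹)⁻¹ := by group
          rw [h3, hk, zpow_neg, zpow_one, inv_inv]
        rw [zpow_two]
        calc r * (c * c) = (c * (c * r * c⁻¹) * c⁻¹) * (c * c) := by rw [h2]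
          _ = c * c * r := by
            simp only [mul_assoc, inv_mul_cancel_left, inv_mul_cancel, mul_one]
      exact (free_root (by norm_num) h1).symm
  rw [hm]
  exact ((Commute.zpow_left (show Commute r c from hcr.symm) m)).eq

end Pool.Agent.H20.SK
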