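import Mathlib
import Pool.Agent.H20.SK.Fox

/-!
A homomorphism from a finitely presented group onto a free group has a finitely generated kernel if the
kernel is centralized by an element which is not in the kernel.
-/

set_option autoImplicit false

namespace Pool.Agent.H20.SK

open FreeGroup (of)

theorem free_zpow {Y : Type} {x : FreeGroup Y} (hx : x ≠ 1) {j : ℤ} (h : x ^ j = 1) : j = 0 := by
  by_contra hj
  apply hx
  exact zpow_left_injective hj (by show x ^ j = 1 ^ j; rw [h, one_zpow])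

/-- the homomorphism from an infinite cyclic subgroup of a free group to `ℤ` -/
theorem exists_phi {Y : Type} {x : FreeGroup Y} (hx : x ≠ 1) :
    ∃ φ : Subgroup.zpowers x →* Multiplicative ℤ,
      φ ⟨x, Subgroup.mem_zpowers x⟩ = Multiplicative.ofAdd 1 := by
  let g : Subgroup.zpowers x := ⟨x, Subgroup.mem_zpowers x⟩
  let e : Multiplicative ℤ →* Subgroup.zpowers x := zpowersHom _ g
  have he : ∀ j : ℤ, e (Multiplicative.ofAdd j) = g ^ j := fun j => rfl
  have hbij : Function.Bijective e := by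
    constructor
    · rw [injective_iff_map_eq_one]
      intro j hj
      have h1 : g ^ (Multiplicative.toAdd j) = 1 := hj
      have h2 : x ^ (Multiplicative.toAdd j) = 1 := by
        have h3 := congrArg Subtype.val h1
        rwa [Subgroup.coe_zpow] at h3
      exact Multiplicative.toAdd.injective (free_zpow hx h2)
    · rintro ⟨y, j, hj⟩
      refine ⟨Multiplicative.ofAdd j, ?_⟩
      rw [he]
      apply Subtype.ext
      rw [Subgroup.coe_zpow]
      exact hj
  let E := MulEquiv.ofBijective e hbij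
  refine ⟨E.symm.toMonoidHom, ?_⟩
  show E.symm g = _
  rw [MulEquiv.symm_apply_eq]
  show g = e (Multiplicative.ofAdd 1)
  rw [he, zpow_one]

/-- overgroups of finite index of finitely generated subgroups -/
theorem fg_of_fi {Γ : Type} [Group Γ] (B K : Subgroup Γ) (hBK : B ≤ K) (hB : B.FG)
    (hfi : (B.subgroupOf K).FiniteIndex) : K.FG := by
  classical
  have hq : Finite (K ⧸ B.subgroupOf K) := inferInstance
  obtain ⟨T, hT, hTf⟩ := (Subgroup.fg_iff B).1 hB
  rw [Subgroup.fg_iff]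
  refine ⟨T ∪ Set.range (fun c : K ⧸ B.subgroupOf K => ((c.out : K) : Γ)), ?_,
    hTf.union (Set.finite_range _)⟩
  apply le_antisymm
  · rw [Subgroup.closure_le]
    rintro x (hx | ⟨c, rfl⟩)
    · apply hBK
      rw [← hT]
      exact Subgroup.subset_closure hx
    · exact c.out.2
  · intro k hk
    let c : K ⧸ B.subgroupOf K := ((⟨k, hk⟩ : K) : K ⧸ B.subgroupOf K)
    have h1 : (c.out)⁻¹ * (⟨k, hk⟩ : K) ∈ B.subgroupOf K :=
      QuotientGroup.eq.1 (QuotientGroup.out_eq' c)
    have h2 : ((c.out : K) : Γ)⁻¹ * k ∈ B := h1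
    have h3 : k = ((c.out : K) : Γ) * (((c.out : K) : Γ)⁻¹ * k) := by group
    rw [h3]
    refine mul_mem (Subgroup.subset_closure (Or.inr ⟨c, rfl⟩)) ?_
    exact Subgroup.closure_mono Set.subset_union_left (hT.ge h2)

/-- left multiplication on `Y × Γ ⧸ A` -/
def qact {Γ : Type} [Group Γ] (Y : Type) (A : Subgroup Γ) (g : Γ) (p : Y × (Γ ⧸ A)) :
    Y × (Γ ⧸ A) := (p.1, g • p.2)

theorem qact_mul {Γ : Type} [Group Γ] (Y : Type) (A : Subgroup Γ) (g h : Γ) (p : Y × (Γ ⧸ A)) :
    qact Y A (g * h) p = qact Y A g (qact Y A h p) := by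
  show (p.1, (g * h) • p.2) = (p.1, g • h • p.2)
  rw [mul_smul]

theorem qact_one {Γ : Type} [Group Γ] (Y : Type) (A : Subgroup Γ) (p : Y × (Γ ⧸ A)) :
    qact Y A 1 p = p := by
  show (p.1, (1 : Γ) • p.2) = p
  rw [one_smul]

/-- the derivation into `ℤ[Y × Γ ⧸ A]`, `A` finitely generated -/
theorem exists_d {Γ Y : Type} [Group Γ] (hfp : Group.IsFinitelyPresented Γ) (π : Γ →* FreeGroup Y)
    (hπ : Function.Surjective π) {D : FreeGroup Y → (Y × FreeGroup Y →₀ ℤ)} (hD : IsFox D) :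
    ∃ (A : Subgroup Γ) (prA : Y × (Γ ⧸ A) → Y × FreeGroup Y) (d : Γ → (Y × (Γ ⧸ A) →₀ ℤ)),
      A.FG ∧ A ≤ π.ker ∧ (∀ y (g : Γ), prA (y, (g : Γ ⧸ A)) = (y, π g)) ∧
      (∀ g h, d (g * h) = d g + Finsupp.mapDomain (qact Y A g) (d h)) ∧
      ∀ g, Finsupp.mapDomain prA (d g) = D (π g) := by
  classical
  obtain ⟨n, ρ, hρ, R, hR, hRker⟩ := hfp.out
  choose s hs using hπ
  let lft : Y × FreeGroup Y → Y × Γ := fun p => (p.1, s p.2)
  let pr : Y × Γ → Y × FreeGroup Y := fun p => (p.1, π p.2)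
  obtain ⟨f, hf, hfd⟩ := exists_der ((lact Y Γ).comp ρ)
    (fun l => Finsupp.mapDomain lft (D (π (ρ (of l)))))
  have hfd' : ∀ g h, f (g * h) = f g + Finsupp.mapDomain (lact Y Γ (ρ g)) (f h) := hfd
  -- the projection of `f`
  have hpr : ∀ w, Finsupp.mapDomain pr (f w) = D (π (ρ w)) := by
    intro w
    refine der_unique ((lact Y (FreeGroup Y)).comp (π.comp ρ)) (fun w => Finsupp.mapDomain pr (f w))
      (fun w => D (π (ρ w))) ?_ ?_ ?_ w
    · intro g h
      show Finsupp.mapDomain pr (f (g * h)) = Finsupp.mapDomain pr (f g) +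
        Finsupp.mapDomain (lact Y (FreeGroup Y) (π (ρ g))) (Finsupp.mapDomain pr (f h))
      rw [hfd', Finsupp.mapDomain_add, ← Finsupp.mapDomain_comp, ← Finsupp.mapDomain_comp]
      congr 2
      funext p
      show (p.1, π (ρ g * p.2)) = (p.1, π (ρ g) * π p.2)
      rw [map_mul]
    · intro g h
      show D (π (ρ (g * h))) = D (π (ρ g)) +
        Finsupp.mapDomain (lact Y (FreeGroup Y) (π (ρ g))) (D (π (ρ h)))
      rw [map_mul, map_mul, hD.2]
    · intro l
      show Finsupp.mapDomain pr (f (of l)) = D (π (ρ (of l)))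
      rw [hf, ← Finsupp.mapDomain_comp]
      have h1 : pr ∘ lft = id := by
        funext p
        show (p.1, π (s p.2)) = p
        rw [hs]
      rw [h1, Finsupp.mapDomain_id]
  -- the finitely generated subgroup
  let U : Finset Γ := hR.toFinset.biUnion fun r => (f r).support.image Prod.snd
  let T : Finset Γ := ((U ×ˢ U).image fun q => q.1⁻¹ * q.2).filter (fun g => g ∈ π.ker)
  let A : Subgroup Γ := Subgroup.closure (T : Set Γ)
  have hAK : A ≤ π.ker := by
    rw [Subgroup.closure_le]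
    intro g hg
    exact (Finset.mem_filter.1 hg).2
  have hUA : ∀ g ∈ U, ∀ g' ∈ U, π g = π g' → g⁻¹ * g' ∈ A := by
    intro g hg g' hg' hgg
    apply Subgroup.subset_closure
    refine Finset.mem_coe.2 (Finset.mem_filter.2 ⟨Finset.mem_image.2
      ⟨(g, g'), Finset.mem_product.2 ⟨hg, hg'⟩, rfl⟩, ?_⟩)
    rw [MonoidHom.mem_ker, map_mul, map_inv, hgg, inv_mul_cancel]
  let qA : Y × Γ → Y × (Γ ⧸ A) := fun p => (p.1, (p.2 : Γ ⧸ A))
  let πA : Γ ⧸ A → FreeGroup Y := Quotient.lift π (by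
    intro a b hab
    have h1 : a⁻¹ * b ∈ A := QuotientGroup.leftRel_apply.1 hab
    have h2 : π (a⁻¹ * b) = 1 := hAK h1
    rw [map_mul, map_inv, inv_mul_eq_one] at h2
    exact h2)
  let prA : Y × (Γ ⧸ A) → Y × FreeGroup Y := fun p => (p.1, πA p.2)
  have hprA : prA ∘ qA = pr := rfl
  -- relators are mapped to zero
  have hrel : ∀ r ∈ R, Finsupp.mapDomain qA (f r) = 0 := by
    intro r hr
    let β : Y × FreeGroup Y → Y × (Γ ⧸ A) := fun p =>
      if h : ∃ g ∈ U, π g = p.2 then (p.1, ((h.choose : Γ) : Γ ⧸ A)) else (p.1, ((1 : Γ) : Γ ⧸ A))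
    have h1 : Finsupp.mapDomain qA (f r) = Finsupp.mapDomain (β ∘ pr) (f r) := by
      apply Finsupp.mapDomain_congr
      intro p hp
      have hpU : p.2 ∈ U := Finset.mem_biUnion.2 ⟨r, hR.mem_toFinset.2 hr,
        Finset.mem_image.2 ⟨p, hp, rfl⟩⟩
      have hex : ∃ g ∈ U, π g = (pr p).2 := ⟨p.2, hpU, rfl⟩
      have h2 : (β ∘ pr) p = (p.1, ((hex.choose : Γ) : Γ ⧸ A)) := by
        show (if h : ∃ g ∈ U, π g = (pr p).2 then ((pr p).1, ((h.choose : Γ) : Γ ⧸ A))
          else ((pr p).1, ((1 : Γ) : Γ ⧸ A))) = _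
        rw [dif_pos hex]
      rw [h2]
      show (p.1, (p.2 : Γ ⧸ A)) = _
      congr 1
      rw [eq_comm, QuotientGroup.eq]
      exact hUA _ hex.choose_spec.1 _ hpU hex.choose_spec.2
    have h3 : ρ r = 1 := by
      have h4 : r ∈ ρ.ker := by
        rw [← hRker]; exact Subgroup.subset_normalClosure hr
      exact h4
    rw [h1, Finsupp.mapDomain_comp, hpr, h3, map_one,
      der_one (lact Y (FreeGroup Y)) D hD.2, Finsupp.mapDomain_zero]
  let F : FreeGroup (Fin n) → (Y × (Γ ⧸ A) →₀ ℤ) := fun w => Finsupp.mapDomain qA (f w)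
  have hF : ∀ g h, F (g * h) = F g + Finsupp.mapDomain (qact Y A (ρ g)) (F h) := by
    intro g h
    show Finsupp.mapDomain qA (f (g * h)) = Finsupp.mapDomain qA (f g) +
      Finsupp.mapDomain (qact Y A (ρ g)) (Finsupp.mapDomain qA (f h))
    rw [hfd', Finsupp.mapDomain_add, ← Finsupp.mapDomain_comp, ← Finsupp.mapDomain_comp]
    rfl
  have hid : qact Y A 1 = id := funext fun p => qact_one Y A p
  have hF1 : F 1 = 0 := by
    have h := hF 1 1
    rw [one_mul, map_one, hid, Finsupp.mapDomain_id] at h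
    exact add_eq_left.1 h.symm
  let W : Subgroup (FreeGroup (Fin n)) :=
    { carrier := {w | ρ w = 1 ∧ F w = 0}
      mul_mem' := by
        rintro a b ⟨ha, ha'⟩ ⟨hb, hb'⟩
        refine ⟨by rw [map_mul, ha, hb, one_mul], ?_⟩
        rw [hF, ha', hb', Finsupp.mapDomain_zero, add_zero]
      one_mem' := ⟨map_one ρ, hF1⟩
      inv_mem' := by
        rintro a ⟨ha, ha'⟩
        refine ⟨by rw [map_inv, ha, inv_one], ?_⟩
        have h := hF a a⁻¹
        rw [mul_inv_cancel, hF1, ha', ha, hid, Finsupp.mapDomain_id, zero_add] at h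
        exact h.symm }
  have hW : W.Normal := by
    refine ⟨?_⟩
    rintro w ⟨hw, hw'⟩ g
    refine ⟨by rw [map_mul, map_mul, hw, mul_one, map_inv, mul_inv_cancel], ?_⟩
    have h := hF g g⁻¹
    rw [mul_inv_cancel, hF1] at h
    rw [mul_assoc, hF, hF w, hw', hw, hid, Finsupp.mapDomain_id, zero_add]
    exact h.symm
  have hker : ∀ w, ρ w = 1 → F w = 0 := by
    intro w hw
    have h1 : w ∈ Subgroup.normalClosure R := by rw [hRker]; exact hw
    have h2 : Subgroup.normalClosure R ≤ W := by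
      apply Subgroup.normalClosure_le_normal
      intro r hr
      have h4 : r ∈ ρ.ker := by
        rw [← hRker]; exact Subgroup.subset_normalClosure hr
      exact ⟨h4, hrel r hr⟩
    exact (h2 h1).2
  have heq : ∀ w w', ρ w = ρ w' → F w = F w' := by
    intro w w' hww
    have h1 : w = w' * (w'⁻¹ * w) := by group
    have h2 : F (w'⁻¹ * w) = 0 := hker _ (by rw [map_mul, map_inv, hww, inv_mul_cancel])
    rw [h1, hF, h2, Finsupp.mapDomain_zero, add_zero]
  choose t ht using hρ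
  refine ⟨A, prA, fun g => F (t g), ⟨T, rfl⟩, hAK, fun y g => rfl, ?_, ?_⟩
  · intro g h
    show F (t (g * h)) = F (t g) + Finsupp.mapDomain (qact Y A g) (F (t h))
    have h1 : F (t (g * h)) = F (t g * t h) := heq _ _ (by rw [ht, map_mul, ht, ht])
    rw [h1, hF, ht]
  · intro g
    show Finsupp.mapDomain prA (Finsupp.mapDomain qA (f (t g))) = D (π g)
    rw [← Finsupp.mapDomain_comp, hprA, hpr, ht]

/-- **finitely generated kernels** -/
theorem ker_fg {Γ Y : Type} [Group Γ] (hfp : Group.IsFinitelyPresented Γ) (π : Γ →* FreeGroup Y)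
    (hπ : Function.Surjective π) (γ : Γ) (hγ : ∀ k ∈ π.ker, γ * k = k * γ) (hx : π γ ≠ 1) :
    π.ker.FG := by
  classical
  obtain ⟨D, hD⟩ := exists_fox Y
  obtain ⟨A, prA, d, hAfg, hAK, hprA, hd, hdD⟩ := exists_d hfp π hπ hD
  -- orbits of `γ`
  let st : Setoid (Y × (Γ ⧸ A)) :=
    { r := fun p p' => ∃ j : ℤ, qact Y A (γ ^ j) p = p'
      iseqv :=
        { refl := fun p => ⟨0, by rw [zpow_zero]; exact qact_one Y A p⟩
          symm := by
            rintro p p' ⟨j, rfl⟩
            exact ⟨-j, by rw [← qact_mul, ← zpow_add, neg_add_cancel, zpow_zero]; exact qact_one Y A p⟩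
          trans := by
            rintro p p' p'' ⟨j, rfl⟩ ⟨l, rfl⟩
            exact ⟨l + j, by rw [zpow_add, qact_mul]⟩ } }
  let q : Y × (Γ ⧸ A) → Quotient st := Quotient.mk st
  have hqγ : ∀ j : ℤ, ∀ p, q (qact Y A (γ ^ j) p) = q p := by
    intro j p
    exact (Quotient.sound (s := st) ⟨j, rfl⟩).symm
  have hqγ1 : q ∘ qact Y A γ = q := by
    funext p
    have h := hqγ 1 p
    rw [zpow_one] at h
    exact h
  let m : Quotient st →₀ ℤ := Finsupp.mapDomain q (d γ)
  have hγj : ∀ k ∈ π.ker, ∀ j : ℤ, γ ^ j * k = k * γ ^ j := by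
    intro k hk j
    exact (Commute.zpow_left (show Commute γ k from hγ k hk) j).eq
  -- invariance under the kernel
  have hinv : ∀ k ∈ π.ker, ∀ p, m (q (qact Y A k p)) = m (q p) := by
    intro k hk p
    let kb : Quotient st → Quotient st := Quotient.map (qact Y A k) (by
      rintro a b ⟨j, rfl⟩
      refine ⟨j, ?_⟩
      rw [← qact_mul, hγj k hk, qact_mul])
    have hkb : ∀ p, kb (q p) = q (qact Y A k p) := fun p => rfl
    have hkinj : Function.Injective kb := by
      intro a b hab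
      obtain ⟨a, rfl⟩ := Quotient.exists_rep a
      obtain ⟨b, rfl⟩ := Quotient.exists_rep b
      have h1 : q (qact Y A k a) = q (qact Y A k b) := hab
      obtain ⟨j, hj⟩ := Quotient.exact h1
      apply Quotient.sound
      refine ⟨j, ?_⟩
      rw [← qact_mul, hγj k hk, qact_mul] at hj
      have hc : ∀ x, qact Y A k⁻¹ (qact Y A k x) = x := fun x => by
        rw [← qact_mul, inv_mul_cancel, qact_one]
      have h2 := congrArg (qact Y A k⁻¹) hj
      rw [hc, hc] at h2
      exact h2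
    have h1 : d γ + Finsupp.mapDomain (qact Y A γ) (d k) =
        d k + Finsupp.mapDomain (qact Y A k) (d γ) := by
      rw [← hd, ← hd, hγ k hk]
    have h2 := congrArg (Finsupp.mapDomain q) h1
    rw [Finsupp.mapDomain_add, Finsupp.mapDomain_add, ← Finsupp.mapDomain_comp, hqγ1,
      add_comm (Finsupp.mapDomain q (d γ))] at h2
    have h3 : Finsupp.mapDomain q (d γ) = Finsupp.mapDomain q (Finsupp.mapDomain (qact Y A k) (d γ)) :=
      add_left_cancel h2
    have h4 : Finsupp.mapDomain kb m = m := by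
      show Finsupp.mapDomain kb (Finsupp.mapDomain q (d γ)) = Finsupp.mapDomain q (d γ)
      rw [← Finsupp.mapDomain_comp]
      conv_rhs => rw [h3, ← Finsupp.mapDomain_comp]
      rfl
    rw [← hkb]
    conv_lhs => rw [← h4]
    exact Finsupp.mapDomain_apply hkinj _ _
  -- `m` is not zero
  have hm : m ≠ 0 := by
    intro h0
    obtain ⟨φ, hφ⟩ := exists_phi hx
    obtain ⟨ψ, hψ, hψD⟩ := fox_detect hD (Subgroup.zpowers (π γ)) φ
    have hpract : ∀ j : ℤ, ∀ p, prA (qact Y A (γ ^ j) p) = (p.1, π γ ^ j * (prA p).2) ∧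
        (prA p).1 = p.1 := by
      rintro j ⟨y, c⟩
      obtain ⟨g, rfl⟩ := QuotientGroup.mk_surjective c
      constructor
      · have h1 : qact Y A (γ ^ j) (y, (g : Γ ⧸ A)) = (y, ((γ ^ j * g : Γ) : Γ ⧸ A)) := rfl
        rw [h1, hprA, hprA, map_mul, map_zpow]
      · rw [hprA]
    let ψ' : Quotient st → ℤ := Quotient.lift (fun p => ψ (prA p)) (by
      rintro a b ⟨j, rfl⟩
      show ψ (prA a) = ψ (prA (qact Y A (γ ^ j) a))
      have h1 : prA a = (a.1, (prA a).2) := Prod.ext (hpract j a).2 rfl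
      rw [(hpract j a).1, hψ _ (Subgroup.zpow_mem_zpowers _ _), ← h1])
    have h1 : Finsupp.linearCombination ℤ ψ' m = 1 := by
      show Finsupp.linearCombination ℤ ψ' (Finsupp.mapDomain q (d γ)) = 1
      rw [Finsupp.linearCombination_mapDomain]
      have h2 : ψ' ∘ q = ψ ∘ prA := rfl
      rw [h2, ← Finsupp.linearCombination_mapDomain, hdD]
      have h3 := hψD ⟨π γ, Subgroup.mem_zpowers _⟩
      rw [hφ] at h3
      exact h3
    rw [h0, map_zero] at h1
    exact zero_ne_one h1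
  obtain ⟨ω, hω⟩ : ∃ ω, m ω ≠ 0 := by
    by_contra hcon
    push Not at hcon
    exact hm (Finsupp.ext hcon)
  obtain ⟨⟨y, c⟩, rfl⟩ := Quotient.exists_rep ω
  obtain ⟨g, rfl⟩ := QuotientGroup.mk_surjective c
  -- the conjugate of `A`
  let B : Subgroup Γ := A.map (MulAut.conj g).toMonoidHom
  have hmB : ∀ x, x ∈ B ↔ g⁻¹ * x * g ∈ A := by
    intro x
    constructor
    · rintro ⟨a, ha, rfl⟩
      have h1 : g⁻¹ * ((MulAut.conj g).toMonoidHom a) * g = a := by
        show g⁻¹ * (g * a * g⁻¹) * g = a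
        group
      rw [h1]; exact ha
    · intro hxa
      refine ⟨_, hxa, ?_⟩
      show g * (g⁻¹ * x * g) * g⁻¹ = x
      group
  have hBK : B ≤ π.ker := by
    rintro _ ⟨a, ha, rfl⟩
    show π (g * a * g⁻¹) = 1
    have h1 : π a = 1 := hAK ha
    rw [map_mul, map_mul, h1, mul_one, map_inv, mul_inv_cancel]
  have hBfg : B.FG := by
    obtain ⟨T, hT, hTf⟩ := (Subgroup.fg_iff A).1 hAfg
    refine (Subgroup.fg_iff B).2 ⟨(MulAut.conj g).toMonoidHom '' T, ?_, hTf.image _⟩
    rw [← MonoidHom.map_closure, hT]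
  refine fg_of_fi B π.ker hBK hBfg ?_
  have hmem : ∀ k : π.ker, q (qact Y A k (y, (g : Γ ⧸ A))) ∈ m.support := by
    intro k
    rw [Finsupp.mem_support_iff, hinv k k.2]
    exact hω
  have hfin : Finite (π.ker ⧸ B.subgroupOf π.ker) := by
    refine Finite.of_injective (fun c : π.ker ⧸ B.subgroupOf π.ker =>
      (⟨_, hmem c.out⟩ : m.support)) ?_
    intro c c' hcc
    have h1 : q (qact Y A (c.out : Γ) (y, (g : Γ ⧸ A))) = q (qact Y A (c'.out : Γ) (y, (g : Γ ⧸ A))) :=
      congrArg Subtype.val hcc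
    obtain ⟨j, hj⟩ := Quotient.exact h1
    have h2 : ((γ ^ j * ((c.out : Γ) * g) : Γ) : Γ ⧸ A) = (((c'.out : Γ) * g : Γ) : Γ ⧸ A) :=
      (Prod.mk.inj hj).2
    have h3 := QuotientGroup.eq.1 h2
    have h4 : π ((γ ^ j * ((c.out : Γ) * g))⁻¹ * ((c'.out : Γ) * g)) = 1 := hAK h3
    have hc1 : π (c.out : Γ) = 1 := c.out.2
    have hc2 : π (c'.out : Γ) = 1 := c'.out.2
    rw [map_mul, map_inv, map_mul, map_mul, map_mul, hc1, hc2, one_mul, map_zpow, mul_inv_rev,
      mul_assoc, inv_mul_eq_one, eq_comm, inv_mul_eq_iff_eq_mul, right_eq_mul] at h4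
    have hj0 : j = 0 := free_zpow hx h4
    rw [hj0, zpow_zero, one_mul] at h3
    have h5 : ((c.out : π.ker))⁻¹ * c'.out ∈ B.subgroupOf π.ker := by
      show (c.out : Γ)⁻¹ * (c'.out : Γ) ∈ B
      rw [hmB]
      have h6 : g⁻¹ * ((c.out : Γ)⁻¹ * (c'.out : Γ)) * g = ((c.out : Γ) * g)⁻¹ * ((c'.out : Γ) * g) := by
        group
      rw [h6]; exact h3
    have h6 := QuotientGroup.eq.2 h5
    rwa [QuotientGroup.out_eq', QuotientGroup.out_eq'] at h6
  exact Subgroup.finiteIndex_of_finite_quotient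

end Pool.Agent.H20.SK
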