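import Mathlib
import Pool.Agent.H20.SK.Virt
import Pool.Agent.H20.SK.FreeCT
import Pool.Agent.H20.SK.KerFG

/-!
Finitely presented subgroups of direct products of free and abelian groups.
-/

set_option autoImplicit false

namespace Pool.Agent.H20.SK

open FreeGroup (of)
open scoped commutatorElement

variable {I : Type} {H : I → Type} [∀ i, Group (H i)] {A : Type} [Group A]

/-- hypercentral elements have trivial coordinates in the nonabelian factors -/
theorem ucs_coord (f : A →* (∀ i, H i)) (l : I) (hct : CT (H l)) {x y : A}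
    (hxy : f x l * f y l ≠ f y l * f x l) (m : ℕ) {z : A}
    (hz : z ∈ Subgroup.upperCentralSeries A m) : f z l = 1 := by
  induction m generalizing z with
  | zero =>
    rw [Subgroup.upperCentralSeries_zero, Subgroup.mem_bot] at hz
    rw [hz, map_one, Pi.one_apply]
  | succ m ih =>
    rw [Subgroup.mem_upperCentralSeries_succ_iff] at hz
    have hcomm : ∀ w, f z l * f w l = f w l * f z l := by
      intro w
      have h1 := ih (hz w)
      have h2 : z * w = ⁅z, w⁆ * (w * z) := by
        rw [commutatorElement_def]; group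
      have h3 := congrFun (congrArg f h2) l
      rw [map_mul, map_mul, map_mul, Pi.mul_apply, Pi.mul_apply, Pi.mul_apply, h1, one_mul] at h3
      exact h3
    exact ct_one hct hxy (hcomm x).symm (hcomm y)

/-- the kernels of the coordinates of a finitely presented group are finitely generated, and products of
two of them have finite index -/
theorem fp_pairs (f : A →* (∀ i, H i)) (hinj : Function.Injective f)
    (hH : ∀ i, IsFreeGroup (H i) ∨ ∀ x y : H i, x * y = y * x)
    (hfp : Group.IsFinitelyPresented A) {J : Finset I} {m : ℕ} (hJ : Sub (fJ f J) m)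
    (i j : {i // i ∈ J}) (hij : i ≠ j) :
    (((Pi.evalMonoidHom (fun i : {i // i ∈ J} => H i.1) i).comp (fJ f J)).ker ⊔
      ((Pi.evalMonoidHom (fun i : {i // i ∈ J} => H i.1) j).comp (fJ f J)).ker).FiniteIndex := by
  classical
  have hct : ∀ l, CT (H l) := by
    intro l
    rcases hH l with h | h
    · exact fun x y z => free_ct x y z
    · exact fun x y z _ _ _ => h x z
  have hfree : ∀ l : {i // i ∈ J}, IsFreeGroup (H l.1) := by
    intro l
    rcases hH l.1 with h | h
    · exact h
    · exfalso
      obtain ⟨a, b, _, _, hab⟩ := hJ.nc l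
      apply hab
      rw [map_mul, map_mul, Pi.mul_apply, Pi.mul_apply]
      exact h _ _
  -- the coordinate as a surjective homomorphism to a free group
  have hcoord : ∀ l : {i // i ∈ J}, ∃ (Y : Type) (π : A →* FreeGroup Y), Function.Surjective π ∧
      ∀ a, π a = 1 ↔ f a l.1 = 1 := by
    intro l
    have hl := hfree l
    let p : A →* H l.1 := (Pi.evalMonoidHom H l.1).comp f
    let e : p.range ≃* FreeGroup (IsFreeGroup.Generators p.range) := IsFreeGroup.toFreeGroup p.range
    refine ⟨_, e.toMonoidHom.comp p.rangeRestrict, e.surjective.comp p.rangeRestrict_surjective, ?_⟩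
    intro a
    show e (p.rangeRestrict a) = 1 ↔ f a l.1 = 1
    rw [MulEquiv.map_eq_one_iff]
    constructor
    · intro h
      exact congrArg Subtype.val h
    · intro h
      exact Subtype.ext h
  have hker : ∀ l : {i // i ∈ J},
      (((Pi.evalMonoidHom (fun i : {i // i ∈ J} => H i.1) l).comp (fJ f J)).ker).FG := by
    intro l
    obtain ⟨Y, π, hπ, hπ1⟩ := hcoord l
    have hk : ((Pi.evalMonoidHom (fun i : {i // i ∈ J} => H i.1) l).comp (fJ f J)).ker = π.ker := by
      ext a
      rw [MonoidHom.mem_ker, MonoidHom.mem_ker, hπ1]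
      rfl
    rw [hk]
    obtain ⟨γ, b, hγ, _, hγb⟩ := hJ.nc l
    have hγ' : ∀ t ∈ J, t ≠ l.1 → f γ t = 1 := fun t ht htl =>
      hγ ⟨t, ht⟩ fun h => htl (congrArg Subtype.val h)
    refine ker_fg hfp π hπ γ ?_ ?_
    · intro k hk'
      have hkl : f k l.1 = 1 := (hπ1 k).1 hk'
      -- the commutator is hypercentral
      have hz : γ * k * γ⁻¹ * k⁻¹ ∈ Subgroup.upperCentralSeries A m := by
        apply hJ.ker
        funext t
        show f (γ * k * γ⁻¹ * k⁻¹) t.1 = 1
        rw [map_mul, map_mul, map_mul, map_inv, map_inv, Pi.mul_apply, Pi.mul_apply, Pi.mul_apply,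
          Pi.inv_apply, Pi.inv_apply]
        by_cases htl : t.1 = l.1
        · have h1 : f k t.1 = 1 := by
            have h2 : t = l := Subtype.ext htl
            rw [h2]; exact hkl
          rw [h1]; group
        · rw [hγ' t.1 t.2 htl]; group
      apply hinj
      funext t
      rw [map_mul, map_mul, Pi.mul_apply, Pi.mul_apply]
      by_contra hne
      have h1 := ucs_coord f t (hct t) hne m hz
      apply hne
      rw [map_mul, map_mul, map_mul, map_inv, map_inv, Pi.mul_apply, Pi.mul_apply, Pi.mul_apply,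
        Pi.inv_apply, Pi.inv_apply] at h1
      calc f γ t * f k t = (f γ t * f k t * (f γ t)⁻¹ * (f k t)⁻¹) * (f k t * f γ t) := by group
        _ = f k t * f γ t := by rw [h1, one_mul]
    · intro h0
      have h1 : f γ l.1 = 1 := (hπ1 γ).1 h0
      apply hγb
      rw [map_mul, map_mul, Pi.mul_apply, Pi.mul_apply]
      show f γ l.1 * f b l.1 = f b l.1 * f γ l.1
      rw [h1, one_mul, mul_one]
  obtain ⟨Y, π, hπ, hπ1⟩ := hcoord j
  have hkj : ((Pi.evalMonoidHom (fun i : {i // i ∈ J} => H i.1) j).comp (fJ f J)).ker = π.ker := by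
    ext a
    rw [MonoidHom.mem_ker, MonoidHom.mem_ker, hπ1]
    rfl
  let Ki : Subgroup A := ((Pi.evalMonoidHom (fun i : {i // i ∈ J} => H i.1) i).comp (fJ f J)).ker
  have hKin : Ki.Normal := MonoidHom.normal_ker _
  let N : Subgroup (FreeGroup Y) := Ki.map π
  have hN : N.Normal := Subgroup.Normal.map hKin _ hπ
  have hNfg : N.FG := by
    obtain ⟨T, hT, hTf⟩ := (Subgroup.fg_iff Ki).1 (hker i)
    refine (Subgroup.fg_iff N).2 ⟨π '' T, ?_, hTf.image _⟩
    rw [← MonoidHom.map_closure, hT]
  have hNne : N ≠ ⊥ := by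
    obtain ⟨a, b, ha, _, hab⟩ := hJ.nc j
    intro h0
    have haK : a ∈ Ki := ha i hij
    have h1 : π a ∈ N := ⟨a, haK, rfl⟩
    rw [h0, Subgroup.mem_bot, hπ1] at h1
    apply hab
    rw [map_mul, map_mul, Pi.mul_apply, Pi.mul_apply]
    show f a j.1 * f b j.1 = f b j.1 * f a j.1
    rw [h1, one_mul, mul_one]
  have hNfi : N.FiniteIndex := fg_normal_free N hNfg hNne
  rw [hkj]
  have h1 : (Ki.map π).comap π = Ki ⊔ π.ker := Subgroup.comap_map_eq π Ki
  show (Ki ⊔ π.ker).FiniteIndex
  rw [← h1]
  refine ⟨?_⟩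
  rw [Subgroup.index_comap_of_surjective _ hπ]
  exact hNfi.index_ne_zero

/-- finitely presented groups are finitely generated -/
theorem fg_of_fp {G : Type} [Group G] (A : Subgroup G) (hfp : Group.IsFinitelyPresented A) :
    A.FG := by
  obtain ⟨n, ρ, hρ, _⟩ := hfp.out
  refine (Subgroup.fg_iff A).2 ⟨Set.range fun k : Fin n => ((ρ (of k) : A) : G), ?_,
    Set.finite_range _⟩
  apply le_antisymm
  · rw [Subgroup.closure_le]
    rintro _ ⟨k, rfl⟩
    exact (ρ (of k)).2
  · intro a ha
    obtain ⟨w, hw⟩ := hρ ⟨a, ha⟩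
    have h1 : ∀ w : FreeGroup (Fin n), ((ρ w : A) : G) ∈
        Subgroup.closure (Set.range fun k : Fin n => ((ρ (of k) : A) : G)) := by
      intro w
      induction w using FreeGroup.induction_on with
      | C1 => rw [map_one]; exact one_mem _
      | of k => exact Subgroup.subset_closure ⟨k, rfl⟩
      | inv_of k h => rw [map_inv]; exact inv_mem h
      | mul u v hu hv => rw [map_mul]; exact mul_mem hu hv
    have h2 := h1 w
    rw [hw] at h2
    exact h2

/-- **extensions whose kernel is virtually a finitely presented subgroup of a product of free and abelian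
groups** -/
theorem main_fp {C : ∀ (G : Type) [Group G], Prop} (hC : Cl C)
    (hfree : ∀ (H : Type) [Group H] (K : Subgroup H) [K.Normal], IsFreeGroup K → C (H ⧸ K) → C H)
    {G : Type} [Group G] (N A : Subgroup G) [N.Normal] (hAN : A ≤ N) (hfi : A.relIndex N ≠ 0)
    (hfp : Group.IsFinitelyPresented A) {I : Type} [Finite I] {H : I → Type} [∀ i, Group (H i)]
    (hH : ∀ i, IsFreeGroup (H i) ∨ ∀ x y : H i, x * y = y * x)
    (f : A →* (∀ i, H i)) (hinj : Function.Injective f) (hQ : C (G ⧸ N)) : C G := by
  have hcsa : ∀ i, CSA (H i) := by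
    intro i
    rcases hH i with h | h
    · exact ⟨fun x y z => free_ct x y z, fun a c => free_csa a c⟩
    · exact ⟨fun x y z _ _ _ => h x z, fun a c _ _ => h a c⟩
  have hgood : ∀ i (L : Subgroup (H i)), Good C L := by
    intro i L E _ K _ he hq
    rcases hH i with h | h
    · obtain ⟨e⟩ := he
      exact hfree E K (IsFreeGroup.ofMulEquiv e.symm) hq
    · obtain ⟨e⟩ := he
      refine hC.abel E K ?_ hq
      intro a ha c hc
      have h3 : (⟨a, ha⟩ : K) * ⟨c, hc⟩ = ⟨c, hc⟩ * ⟨a, ha⟩ := by
        apply e.injective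
        rw [map_mul, map_mul]
        exact Subtype.ext (h _ _)
      exact congrArg Subtype.val h3
  obtain ⟨J, m, hJ⟩ := exists_J f 0 (fun a ha => by
    have h1 : a = 1 := hinj (by rw [ha, map_one])
    rw [h1]; exact one_mem _) hcsa
  have hNfg : Group.FG N := by
    have h1 : N.FG := fg_of_fi A N hAN (fg_of_fp A hfp) ⟨hfi⟩
    exact (Group.fg_iff_subgroup_fg N).2 h1
  obtain ⟨S, hS, k, hk⟩ := vspK (fJ f J) fun i j hij => fp_pairs f hinj hH hfp hJ i j hij
  exact main3 hC N A hAN hfi (Or.inr hNfg) hJ (fun i => hgood i.1 _) S hS k hk hQ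

end Pool.Agent.H20.SK
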